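import Mathlib

/-!
# Order intervals in the dual of `C(X)`, and a selection theorem
-/

set_option autoImplicit false
set_option linter.unusedSectionVars false
set_option linter.unusedVariables false

namespace Pool.Agent.H96f76

open MeasureTheory Set Filter Topology
open scoped ENNReal

section Abstract

variable {Z : Type*} [NormedAddCommGroup Z] [NormedSpace ℝ Z]

/-- Banach-Alaoglu, along an ultrafilter. -/
theorem exists_weakstar_limit {I : Type*} (U : Ultrafilter I) (F : I → StrongDual ℝ Z) {C : ℝ}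
    (hF : ∀ i, ‖F i‖ ≤ C) :
    ∃ G : StrongDual ℝ Z, ‖G‖ ≤ C ∧ ∀ z, Tendsto (fun i => F i z) U (𝓝 (G z)) := by
  have hK : IsCompact (WeakDual.toStrongDual ⁻¹' Metric.closedBall (0 : StrongDual ℝ Z) C) :=
    WeakDual.isCompact_closedBall (𝕜 := ℝ) (E := Z) 0 C
  have h1 : (U.map fun i => StrongDual.toWeakDual (F i) : Filter (WeakDual ℝ Z)) ≤
      𝓟 (WeakDual.toStrongDual ⁻¹' Metric.closedBall (0 : StrongDual ℝ Z) C) := by
    rw [le_principal_iff]
    show ∀ᶠ i in (U : Filter I), _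
    filter_upwards with i
    rw [mem_preimage, mem_closedBall_zero_iff]
    exact hF i
  obtain ⟨w, hw, hwlim⟩ := hK.ultrafilter_le_nhds (U.map fun i => StrongDual.toWeakDual (F i)) h1
  refine ⟨WeakDual.toStrongDual w, ?_, fun z => ?_⟩
  · rwa [mem_preimage, mem_closedBall_zero_iff] at hw
  · have h2 : Tendsto (fun i => StrongDual.toWeakDual (F i)) (U : Filter I) (𝓝 w) := hwlim
    exact (WeakDual.eval_continuous z).continuousAt.tendsto.comp h2

theorem norm_le_of_forall {ψ : StrongDual ℝ Z} {C : ℝ} (h : ∀ g, ‖g‖ ≤ 1 → ψ g ≤ C) :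
    ‖ψ‖ ≤ C := by
  have hC : 0 ≤ C := by
    have := h 0 (by simp)
    rwa [map_zero] at this
  refine ContinuousLinearMap.opNorm_le_of_unit_norm hC fun x hx => ?_
  rw [Real.norm_eq_abs, abs_le]
  constructor
  · have := h (-x) (by rw [norm_neg, hx])
    rw [map_neg] at this
    linarith
  · exact h x hx.le

end Abstract

variable {X : Type*} [MetricSpace X] [CompactSpace X] [MeasurableSpace X] [BorelSpace X]

theorem integrable_C (l : Measure X) [IsFiniteMeasure l] (f : C(X, ℝ)) :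
    Integrable (fun x => f x) l :=
  Integrable.of_bound f.continuous.aestronglyMeasurable ‖f‖
    (Eventually.of_forall fun x => f.norm_coe_le_norm x)

theorem integrable_abs (l : Measure X) [IsFiniteMeasure l] (f : C(X, ℝ)) :
    Integrable (fun x => |f x|) l := (integrable_C l f).abs

/-- The order interval `[-M l, M l]` in the dual of `C(X)`. -/
def Kset (l : Measure X) (M : ℝ) : Set (StrongDual ℝ C(X, ℝ)) :=
  {ψ | ∀ f : C(X, ℝ), |ψ f| ≤ M * ∫ x, |f x| ∂l}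

/-- The total mass bound. -/
theorem integral_abs_le (l : Measure X) [IsFiniteMeasure l] (f : C(X, ℝ)) :
    ∫ x, |f x| ∂l ≤ l.real univ * ‖f‖ := by
  calc ∫ x, |f x| ∂l ≤ ∫ _, ‖f‖ ∂l := by
        apply integral_mono (integrable_abs l f) (integrable_const _)
        intro x
        exact f.norm_coe_le_norm x
    _ = l.real univ * ‖f‖ := by rw [integral_const, smul_eq_mul]

theorem norm_le_of_mem {l : Measure X} [IsFiniteMeasure l] {M : ℝ} (hM : 0 ≤ M)
    {ψ : StrongDual ℝ C(X, ℝ)} (h : ψ ∈ Kset l M) : ‖ψ‖ ≤ M * l.real univ := by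
  apply norm_le_of_forall
  intro g hg
  calc ψ g ≤ |ψ g| := le_abs_self _
    _ ≤ M * ∫ x, |g x| ∂l := h g
    _ ≤ M * (l.real univ * ‖g‖) := by gcongr; exact integral_abs_le l g
    _ ≤ M * (l.real univ * 1) := by gcongr
    _ = M * l.real univ := by rw [mul_one]

theorem convex_Kset (l : Measure X) (M : ℝ) : Convex ℝ (Kset l M) := by
  intro a ha b hb s t hs ht hst f
  rw [add_apply, smul_apply, smul_apply, smul_eq_mul, smul_eq_mul]
  calc |s * a f + t * b f| ≤ |s * a f| + |t * b f| := abs_add_le _ _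
    _ = s * |a f| + t * |b f| := by rw [abs_mul, abs_mul, abs_of_nonneg hs, abs_of_nonneg ht]
    _ ≤ s * (M * ∫ x, |f x| ∂l) + t * (M * ∫ x, |f x| ∂l) := by
        gcongr
        · exact ha f
        · exact hb f
    _ = M * ∫ x, |f x| ∂l := by rw [← add_mul, hst, one_mul]

theorem zero_mem_Kset (l : Measure X) {M : ℝ} (hM : 0 ≤ M) : (0 : StrongDual ℝ C(X, ℝ)) ∈ Kset l M := by
  intro f
  rw [zero_apply, abs_zero]
  positivity

/-- Bound for continuous functions. -/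
theorem norm_le_one {f : C(X, ℝ)} (h : ∀ x, |f x| ≤ 1) : ‖f‖ ≤ 1 := by
  rw [ContinuousMap.norm_le _ zero_le_one]
  exact h

/-- The distance of a functional to the order interval, by duality. -/
noncomputable def dd (l : Measure X) (M : ℝ) (φ : StrongDual ℝ C(X, ℝ)) : ℝ :=
  sSup {r | ∃ f : C(X, ℝ), ‖f‖ ≤ 1 ∧ r = φ f - M * ∫ x, |f x| ∂l}

variable {l : Measure X} [IsFiniteMeasure l] {M : ℝ}

theorem dd_bddAbove (hM : 0 ≤ M) (φ : StrongDual ℝ C(X, ℝ)) :
    BddAbove {r | ∃ f : C(X, ℝ), ‖f‖ ≤ 1 ∧ r = φ f - M * ∫ x, |f x| ∂l} := by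
  refine ⟨‖φ‖, ?_⟩
  rintro r ⟨f, hf, rfl⟩
  have h1 : φ f ≤ ‖φ‖ := by
    calc φ f ≤ |φ f| := le_abs_self _
      _ ≤ ‖φ‖ * ‖f‖ := φ.le_opNorm f
      _ ≤ ‖φ‖ * 1 := by gcongr
      _ = ‖φ‖ := mul_one _
  have h2 : 0 ≤ M * ∫ x, |f x| ∂l := by positivity
  linarith

theorem le_dd (hM : 0 ≤ M) (φ : StrongDual ℝ C(X, ℝ)) {f : C(X, ℝ)} (hf : ‖f‖ ≤ 1) :
    φ f - M * ∫ x, |f x| ∂l ≤ dd l M φ :=
  le_csSup (dd_bddAbove hM φ) ⟨f, hf, rfl⟩

theorem dd_nonneg (hM : 0 ≤ M) (φ : StrongDual ℝ C(X, ℝ)) : 0 ≤ dd l M φ := by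
  have h := le_dd (l := l) hM φ (f := 0) (by simp)
  simpa using h

theorem le_dd' (hM : 0 ≤ M) (φ : StrongDual ℝ C(X, ℝ)) (f : C(X, ℝ)) :
    φ f ≤ M * ∫ x, |f x| ∂l + dd l M φ * ‖f‖ := by
  by_cases hf : f = 0
  · rw [hf]; simp
  · have hn : 0 < ‖f‖ := norm_pos_iff.2 hf
    have h := le_dd (l := l) hM φ (f := ‖f‖⁻¹ • f) (by
      rw [norm_smul, norm_inv, norm_norm, inv_mul_cancel₀ hn.ne'])
    have h2 : ∫ x, |(‖f‖⁻¹ • f) x| ∂l = ‖f‖⁻¹ * ∫ x, |f x| ∂l := by
      rw [← integral_const_mul]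
      congr 1
      ext x
      rw [ContinuousMap.smul_apply, smul_eq_mul, abs_mul, abs_inv, abs_norm]
    rw [h2, map_smul, smul_eq_mul] at h
    have h3 := mul_le_mul_of_nonneg_left h hn.le
    have h4 : ‖f‖ * (‖f‖⁻¹ * φ f - M * (‖f‖⁻¹ * ∫ x, |f x| ∂l)) = φ f - M * ∫ x, |f x| ∂l := by
      field_simp
    rw [h4] at h3
    linarith

theorem dd_le {φ : StrongDual ℝ C(X, ℝ)} {D : ℝ} (hD : 0 ≤ D)
    (h : ∀ f : C(X, ℝ), φ f ≤ M * ∫ x, |f x| ∂l + D * ‖f‖) : dd l M φ ≤ D := by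
  apply csSup_le
  · exact ⟨_, 0, by simp, rfl⟩
  · rintro r ⟨f, hf, rfl⟩
    have h1 := h f
    have h2 : D * ‖f‖ ≤ D * 1 := by gcongr
    linarith

/-- The geometric property of order intervals. -/
theorem prop_P (hM : 0 ≤ M) {a h : StrongDual ℝ C(X, ℝ)} (ha : a ∈ Kset l M) (hh : h ∈ Kset l M)
    (φ : StrongDual ℝ C(X, ℝ)) : ‖h - a‖ + 2 * dd l M φ ≤ ‖φ - h‖ + ‖φ - a‖ := by
  have key : ∀ f : C(X, ℝ), ‖f‖ ≤ 1 → ∀ g : C(X, ℝ), ‖g‖ ≤ 1 →
      (h - a) g + 2 * (φ f - M * ∫ x, |f x| ∂l) ≤ ‖φ - h‖ + ‖φ - a‖ := by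
    intro f hf g hg
    have hfx : ∀ x, |f x| ≤ 1 := fun x => (f.norm_coe_le_norm x).trans hf
    have hgx : ∀ x, |g x| ≤ 1 := fun x => (g.norm_coe_le_norm x).trans hg
    set k : C(X, ℝ) := (1 - |f|) * g with hk
    have hkx : ∀ x, k x = (1 - |f x|) * g x := fun x => rfl
    have hkabs : ∀ x, |k x| ≤ 1 - |f x| := by
      intro x
      rw [hkx, abs_mul, abs_of_nonneg (by linarith [hfx x])]
      calc (1 - |f x|) * |g x| ≤ (1 - |f x|) * 1 := by
            apply mul_le_mul_of_nonneg_left (hgx x); linarith [hfx x]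
        _ = _ := mul_one _
    have h1 : ‖f + k‖ ≤ 1 := by
      apply norm_le_one
      intro x
      rw [ContinuousMap.add_apply]
      have := abs_add_le (f x) (k x)
      linarith [hkabs x]
    have h2 : ‖f - k‖ ≤ 1 := by
      apply norm_le_one
      intro x
      rw [ContinuousMap.sub_apply]
      have := abs_sub (f x) (k x)
      linarith [hkabs x]
    have h3 : (φ - a) (f + k) ≤ ‖φ - a‖ := by
      calc (φ - a) (f + k) ≤ |(φ - a) (f + k)| := le_abs_self _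
        _ ≤ ‖φ - a‖ * ‖f + k‖ := (φ - a).le_opNorm _
        _ ≤ ‖φ - a‖ * 1 := by gcongr
        _ = _ := mul_one _
    have h4 : (φ - h) (f - k) ≤ ‖φ - h‖ := by
      calc (φ - h) (f - k) ≤ |(φ - h) (f - k)| := le_abs_self _
        _ ≤ ‖φ - h‖ * ‖f - k‖ := (φ - h).le_opNorm _
        _ ≤ ‖φ - h‖ * 1 := by gcongr
        _ = _ := mul_one _
    -- the two pieces
    have h5 := (le_abs_self _).trans (ha (f - |f| * g))
    have h6 := (le_abs_self _).trans (hh (f + |f| * g))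
    have h7 : (∫ x, |(f - |f| * g) x| ∂l) + ∫ x, |(f + |f| * g) x| ∂l = 2 * ∫ x, |f x| ∂l := by
      rw [← integral_add (integrable_abs l _) (integrable_abs l _), ← integral_const_mul]
      congr 1
      ext x
      show |f x - |f x| * g x| + |f x + |f x| * g x| = 2 * |f x|
      have hg1 := abs_le.1 (hgx x)
      rcases le_total 0 (f x) with h0 | h0
      · rw [abs_of_nonneg h0, abs_of_nonneg, abs_of_nonneg]
        · ring
        · nlinarith
        · nlinarith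
      · rw [abs_of_nonpos h0, abs_of_nonpos, abs_of_nonpos]
        · ring
        · nlinarith
        · nlinarith
    have hk2 : k = g - |f| * g := by rw [hk]; ring
    have h8 : (φ - a) (f + k) + (φ - h) (f - k) =
        2 * φ f - (a (f - |f| * g) + h (f + |f| * g)) + (h - a) g := by
      rw [hk2]
      simp only [sub_apply, map_add, map_sub]
      ring
    have h9 : a (f - |f| * g) + h (f + |f| * g) ≤ 2 * (M * ∫ x, |f x| ∂l) := by
      calc a (f - |f| * g) + h (f + |f| * g)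
          ≤ M * (∫ x, |(f - |f| * g) x| ∂l) + M * ∫ x, |(f + |f| * g) x| ∂l := add_le_add h5 h6
        _ = M * ((∫ x, |(f - |f| * g) x| ∂l) + ∫ x, |(f + |f| * g) x| ∂l) := by ring
        _ = 2 * (M * ∫ x, |f x| ∂l) := by rw [h7]; ring
    linarith
  have h1 : ∀ f : C(X, ℝ), ‖f‖ ≤ 1 →
      φ f - M * ∫ x, |f x| ∂l ≤ (‖φ - h‖ + ‖φ - a‖ - ‖h - a‖) / 2 := by
    intro f hf
    have h2 : ‖h - a‖ ≤ ‖φ - h‖ + ‖φ - a‖ - 2 * (φ f - M * ∫ x, |f x| ∂l) := by
      apply norm_le_of_forall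
      intro g hg
      have := key f hf g hg
      linarith
    linarith
  have h2 : dd l M φ ≤ (‖φ - h‖ + ‖φ - a‖ - ‖h - a‖) / 2 := by
    apply csSup_le
    · exact ⟨_, 0, by simp, rfl⟩
    · rintro r ⟨f, hf, rfl⟩
      exact h1 f hf
  linarith

/-- A nearest point of the order interval. -/
theorem exists_near (hM : 0 ≤ M) (φ : StrongDual ℝ C(X, ℝ)) :
    ∃ a ∈ Kset l M, ‖φ - a‖ ≤ dd l M φ := by
  set D := dd l M φ with hD
  have hD0 : 0 ≤ D := dd_nonneg hM φ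
  let p : (C(X, ℝ) × C(X, ℝ)) →ₗ.[ℝ] ℝ :=
    { domain := LinearMap.eqLocus (LinearMap.fst ℝ C(X, ℝ) C(X, ℝ)) (LinearMap.snd ℝ C(X, ℝ) C(X, ℝ))
      toFun := (φ.toLinearMap ∘ₗ LinearMap.fst ℝ C(X, ℝ) C(X, ℝ)) ∘ₗ Submodule.subtype _ }
  obtain ⟨G, hG1, hG2⟩ := exists_extension_of_le_sublinear p
    (fun q => M * ∫ x, |q.1 x| ∂l + D * ‖q.2‖) (by
      intro c hc q
      simp only [Prod.smul_fst, Prod.smul_snd, norm_smul, Real.norm_eq_abs, abs_of_pos hc]
      have h2 : ∫ x, |(c • q.1) x| ∂l = c * ∫ x, |q.1 x| ∂l := by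
        rw [← integral_const_mul]
        congr 1
        ext x
        rw [ContinuousMap.smul_apply, smul_eq_mul, abs_mul, abs_of_pos hc]
      rw [h2]; ring) (by
      intro q r
      have h1 : ∫ x, |(q + r).1 x| ∂l ≤ (∫ x, |q.1 x| ∂l) + ∫ x, |r.1 x| ∂l := by
        rw [← integral_add (integrable_abs l _) (integrable_abs l _)]
        apply integral_mono (integrable_abs l _) ((integrable_abs l _).add (integrable_abs l _))
        intro x
        exact abs_add_le _ _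
      have h2 : ‖(q + r).2‖ ≤ ‖q.2‖ + ‖r.2‖ := norm_add_le _ _
      have h3 : M * ∫ x, |(q + r).1 x| ∂l ≤ M * ((∫ x, |q.1 x| ∂l) + ∫ x, |r.1 x| ∂l) := by
        gcongr
      have h4 : D * ‖(q + r).2‖ ≤ D * (‖q.2‖ + ‖r.2‖) := by gcongr
      linarith) (by
      rintro ⟨⟨f, g⟩, hfg⟩
      have hfg' : f = g := hfg
      subst hfg'
      exact le_dd' hM φ f)
  have hdiag : ∀ f, G (f, f) = φ f := fun f => hG1 ⟨(f, f), rfl⟩
  have ha1 : ∀ f : C(X, ℝ), G (f, 0) ≤ M * ∫ x, |f x| ∂l := by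
    intro f
    have := hG2 (f, 0)
    simpa using this
  have ha2 : ∀ f : C(X, ℝ), |G (f, 0)| ≤ M * ∫ x, |f x| ∂l := by
    intro f
    rw [abs_le]
    constructor
    · have h1 := ha1 (-f)
      have h2 : ((-f : C(X, ℝ)), (0 : C(X, ℝ))) = -(f, 0) := by simp
      rw [h2, map_neg] at h1
      have h3 : ∫ x, |(-f) x| ∂l = ∫ x, |f x| ∂l := by
        congr 1
        ext x
        rw [ContinuousMap.neg_apply, abs_neg]
      rw [h3] at h1
      linarith
    · exact ha1 f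
  let a₀ : C(X, ℝ) →ₗ[ℝ] ℝ := G ∘ₗ LinearMap.inl ℝ C(X, ℝ) C(X, ℝ)
  have ha₀ : ∀ f, a₀ f = G (f, 0) := fun f => rfl
  let a : StrongDual ℝ C(X, ℝ) := a₀.mkContinuous (M * l.real univ) (by
    intro f
    rw [Real.norm_eq_abs, ha₀]
    refine (ha2 f).trans ?_
    rw [mul_assoc]
    gcongr
    exact integral_abs_le l f)
  have haf : ∀ f, a f = G (f, 0) := fun f => rfl
  refine ⟨a, fun f => by rw [haf]; exact ha2 f, ?_⟩
  apply norm_le_of_forall
  intro g hg
  rw [sub_apply, haf, ← hdiag, ← map_sub]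
  have h1 : ((g, g) : C(X, ℝ) × C(X, ℝ)) - (g, 0) = (0, g) := by simp
  rw [h1]
  have h2 := hG2 (0, g)
  have h3 : D * ‖g‖ ≤ D * 1 := by gcongr
  simp only [ContinuousMap.zero_apply, abs_zero, integral_zero, mul_zero, zero_add] at h2
  linarith

end Pool.Agent.H96f76
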