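import Pool.Agent.H96f76.Sel

/-!
# The selection theorem
-/

set_option autoImplicit false
set_option linter.unusedSectionVars false
set_option linter.unusedVariables false

namespace Pool.Agent.H96f76

open MeasureTheory Set Filter Topology
open scoped ENNReal

variable {X : Type*} [MetricSpace X] [CompactSpace X] [MeasurableSpace X] [BorelSpace X]
  {l : Measure X} [IsFiniteMeasure l] {M : ℝ}

section Selection

variable {Y : Type*} [TopologicalSpace Y] [CompactSpace Y] [T2Space Y]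

/-- The approximate selections. -/
def Appr (l : Measure X) (M η : ℝ) (φ : Y → StrongDual ℝ C(X, ℝ)) (g : ℕ → C(X, ℝ)) (n : ℕ)
    (F : C(Y, StrongDual ℝ C(X, ℝ))) : Prop :=
  ∀ y, F y ∈ Kset l M ∧ ∃ z ∈ Good l M η (φ y), ∀ i < n, |F y (g i) - z (g i)| < (1 / 2 : ℝ) ^ n

theorem step (hM : 0 ≤ M) {η : ℝ} (hη : 0 < η) (φ : Y → StrongDual ℝ C(X, ℝ))
    (hφ : ∀ f, Continuous fun y => φ y f) (g : ℕ → C(X, ℝ)) (n : ℕ)
    (F : C(Y, StrongDual ℝ C(X, ℝ))) (hF : Appr l M η φ g n F) :
    ∃ F' : C(Y, StrongDual ℝ C(X, ℝ)), Appr l M η φ g (n + 1) F' ∧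
      ∀ y, ∀ i < n, |F' y (g i) - F y (g i)| < (1 / 2 : ℝ) ^ n := by
  set t : Y → Set (StrongDual ℝ C(X, ℝ)) := fun y => {h | h ∈ Kset l M ∧
    (∀ i < n, |h (g i) - F y (g i)| < (1 / 2 : ℝ) ^ n) ∧
    ∃ z ∈ Good l M η (φ y), ∀ i < n + 1, |h (g i) - z (g i)| < (1 / 2 : ℝ) ^ (n + 1)} with ht
  have habs : ∀ {s r a b c d : ℝ} {ε : ℝ}, 0 ≤ s → 0 ≤ r → s + r = 1 → |a - c| < ε → |b - d| < ε →
      |(s * a + r * b) - (s * c + r * d)| < ε := by
    intro s r a b c d ε hs hr hsr h1 h2
    have h3 : (s * a + r * b) - (s * c + r * d) = s * (a - c) + r * (b - d) := by ring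
    rw [h3]
    have h4 : |s * (a - c) + r * (b - d)| ≤ s * |a - c| + r * |b - d| := by
      refine (abs_add_le _ _).trans ?_
      rw [abs_mul, abs_mul, abs_of_nonneg hs, abs_of_nonneg hr]
    have h5 : s * ε + r * ε = ε := by rw [← add_mul, hsr, one_mul]
    rcases hs.lt_or_eq with h0 | h0
    · have h6 : s * |a - c| < s * ε := by gcongr
      have h7 : r * |b - d| ≤ r * ε := by gcongr
      linarith
    · have hr1 : r = 1 := by linarith
      rw [← h0, hr1] at h4 ⊢
      linarith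
  have hconv : ∀ y, Convex ℝ (t y) := by
    intro y a ha b hb s r hs hr hsr
    obtain ⟨ha1, ha2, za, hza, ha3⟩ := ha
    obtain ⟨hb1, hb2, zb, hzb, hb3⟩ := hb
    refine ⟨convex_Kset l M ha1 hb1 hs hr hsr, fun i hi => ?_, s • za + r • zb,
      convex_Good l M η (φ y) hza hzb hs hr hsr, fun i hi => ?_⟩
    · have h1 := habs hs hr hsr (ha2 i hi) (hb2 i hi)
      have h2 : s * F y (g i) + r * F y (g i) = F y (g i) := by rw [← add_mul, hsr, one_mul]
      rw [h2] at h1
      exact h1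
    · exact habs hs hr hsr (ha3 i hi) (hb3 i hi)
  obtain ⟨F', hF'⟩ := exists_continuous_forall_mem_convex_of_local_const hconv (by
    intro y
    obtain ⟨hy1, z, hz, hyz⟩ := hF y
    refine ⟨z, ?_⟩
    have e1 : ∀ᶠ y' in 𝓝 y, ∀ i < n, |z (g i) - F y' (g i)| < (1 / 2 : ℝ) ^ n := by
      have h1 : ∀ᶠ y' in 𝓝 y, ∀ i ∈ Finset.range n, |z (g i) - F y' (g i)| < (1 / 2 : ℝ) ^ n := by
        rw [Filter.eventually_all_finset]
        intro i hi
        have hc : Continuous fun y' => |z (g i) - F y' (g i)| :=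
          (continuous_const.sub (F.continuous.clm_apply continuous_const)).abs
        apply hc.continuousAt.tendsto.eventually (gt_mem_nhds _)
        rw [abs_sub_comm]
        exact hyz i (Finset.mem_range.1 hi)
      filter_upwards [h1] with y' hy' i hi
      exact hy' i (Finset.mem_range.2 hi)
    have e2 := lsc hM hη φ hφ y hz g (n + 1) (ε := (1 / 2 : ℝ) ^ (n + 1)) (by positivity)
    filter_upwards [e1, e2] with y' h1 h2
    exact ⟨hz.1, h1, h2⟩)
  refine ⟨F', fun y => ⟨(hF' y).1, ?_⟩, fun y => (hF' y).2.1⟩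
  exact (hF' y).2.2

theorem exists_sequence (hM : 0 ≤ M) {η : ℝ} (hη : 0 < η) (φ : Y → StrongDual ℝ C(X, ℝ))
    (hφ : ∀ f, Continuous fun y => φ y f) (g : ℕ → C(X, ℝ)) :
    ∃ F : ℕ → C(Y, StrongDual ℝ C(X, ℝ)), (∀ n, Appr l M η φ g n (F n)) ∧
      ∀ n y, ∀ i < n, |F (n + 1) y (g i) - F n y (g i)| < (1 / 2 : ℝ) ^ n := by
  have h0 : Appr l M η φ g 0 0 := by
    intro y
    refine ⟨zero_mem_Kset l hM, ?_⟩
    obtain ⟨z, hz⟩ := Good_nonempty (l := l) hM hη (φ y)
    exact ⟨z, hz, fun i hi => absurd hi (Nat.not_lt_zero i)⟩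
  choose! st hst using fun (n : ℕ) (F : C(Y, StrongDual ℝ C(X, ℝ))) (hF : Appr l M η φ g n F) =>
    step hM hη φ hφ g n F hF
  let F : ℕ → C(Y, StrongDual ℝ C(X, ℝ)) := fun n => Nat.rec 0 (fun n F => st n F) n
  have hF : ∀ n, Appr l M η φ g n (F n) := by
    intro n
    induction n with
    | zero => exact h0
    | succ n ih => exact (hst n (F n) ih).1
  exact ⟨F, hF, fun n => (hst n (F n) (hF n)).2⟩

theorem selection (hM : 0 ≤ M) {η : ℝ} (hη : 0 < η) (φ : Y → StrongDual ℝ C(X, ℝ))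
    (hφ : ∀ f, Continuous fun y => φ y f) :
    ∃ W : C(X, ℝ) →L[ℝ] C(Y, ℝ), (∀ f y, |W f y| ≤ M * ∫ x, |f x| ∂l) ∧
      ∀ y f, |φ y f - W f y| ≤ (2 * dd l M (φ y) + η) * ‖f‖ := by
  set g : ℕ → C(X, ℝ) := TopologicalSpace.denseSeq C(X, ℝ) with hg
  have hgd : DenseRange g := TopologicalSpace.denseRange_denseSeq _
  obtain ⟨F, hF1, hF2⟩ := exists_sequence (l := l) hM hη φ hφ g
  -- evaluation
  set G : C(X, ℝ) → ℕ → C(Y, ℝ) := fun f n =>
    ⟨fun y => F n y f, (F n).continuous.clm_apply continuous_const⟩ with hG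
  have hGapp : ∀ f n y, G f n y = F n y f := fun f n y => rfl
  set R : ℝ := M * l.real univ with hR
  have hR0 : 0 ≤ R := by positivity
  have hbd : ∀ n y f, |F n y f| ≤ R * ‖f‖ := by
    intro n y f
    refine ((hF1 n y).1 f).trans ?_
    rw [hR, mul_assoc]
    gcongr
    exact integral_abs_le l f
  have hGdist : ∀ f f' n, dist (G f n) (G f' n) ≤ R * ‖f - f'‖ := by
    intro f f' n
    rw [ContinuousMap.dist_le (by positivity)]
    intro y
    rw [hGapp, hGapp, Real.dist_eq, ← map_sub]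
    exact hbd n y _
  -- Cauchy property
  have hcauchy1 : ∀ i, CauchySeq (G (g i)) := by
    intro i
    have h1 : ∀ n, dist (G (g i) (n + (i + 1))) (G (g i) (n + (i + 1) + 1)) ≤ 1 * (1 / 2) ^ n := by
      intro n
      rw [ContinuousMap.dist_le (by positivity)]
      intro y
      rw [hGapp, hGapp, Real.dist_eq, abs_sub_comm]
      refine (hF2 (n + (i + 1)) y i (by omega)).le.trans ?_
      rw [one_mul]
      apply pow_le_pow_of_le_one (by norm_num) (by norm_num)
      omega
    have h2 : CauchySeq fun n => G (g i) (n + (i + 1)) := by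
      apply cauchySeq_of_le_geometric (1 / 2 : ℝ) 1 (by norm_num)
      intro n
      have := h1 n
      rwa [show n + (i + 1) + 1 = n + 1 + (i + 1) by ring] at this
    exact (cauchySeq_shift (u := G (g i)) (i + 1)).1 h2
  have hcauchy : ∀ f, CauchySeq (G f) := by
    intro f
    rw [Metric.cauchySeq_iff]
    intro ε hε
    obtain ⟨i, hi⟩ := hgd.exists_dist_lt f (show 0 < ε / (3 * (R + 1)) by positivity)
    rw [dist_eq_norm] at hi
    have h1 : R * ‖f - g i‖ ≤ ε / 3 := by
      calc R * ‖f - g i‖ ≤ (R + 1) * (ε / (3 * (R + 1))) := by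
            apply mul_le_mul (by linarith) hi.le (norm_nonneg _) (by positivity)
        _ = ε / 3 := by field_simp
    obtain ⟨N, hN⟩ := Metric.cauchySeq_iff.1 (hcauchy1 i) (ε / 3) (by positivity)
    refine ⟨N, fun m hm n hn => ?_⟩
    have h2 := hN m hm n hn
    have h3 := hGdist f (g i) m
    have h4 := hGdist f (g i) n
    rw [dist_comm] at h4
    calc dist (G f m) (G f n) ≤ dist (G f m) (G (g i) m) + dist (G (g i) m) (G (g i) n) +
          dist (G (g i) n) (G f n) := dist_triangle4 _ _ _ _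
      _ < ε := by linarith
  choose W₀ hW₀ using fun f => cauchySeq_tendsto_of_complete (hcauchy f)
  have hW₀y : ∀ f y, Tendsto (fun n => F n y f) atTop (𝓝 (W₀ f y)) := by
    intro f y
    exact ((ContinuousEvalConst.continuous_eval_const y).tendsto (W₀ f)).comp (hW₀ f)
  have hWb : ∀ f y, |W₀ f y| ≤ M * ∫ x, |f x| ∂l := fun f y =>
    le_of_tendsto' (hW₀y f y).abs fun n => (hF1 n y).1 f
  let W₁ : C(X, ℝ) →ₗ[ℝ] C(Y, ℝ) :=
    { toFun := W₀
      map_add' := by
        intro f f'
        ext y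
        apply tendsto_nhds_unique (hW₀y (f + f') y)
        have := (hW₀y f y).add (hW₀y f' y)
        simpa using this
      map_smul' := by
        intro c f
        ext y
        apply tendsto_nhds_unique (hW₀y (c • f) y)
        have := (hW₀y f y).const_mul c
        simpa using this }
  have hW₁b : ∀ f, ‖W₁ f‖ ≤ R * ‖f‖ := by
    intro f
    rw [ContinuousMap.norm_le _ (by positivity)]
    intro y
    refine (hWb f y).trans ?_
    rw [hR, mul_assoc]
    gcongr
    exact integral_abs_le l f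
  refine ⟨W₁.mkContinuous R hW₁b, hWb, fun y f => ?_⟩
  show |φ y f - W₀ f y| ≤ _
  set D : ℝ := 2 * dd l M (φ y) + η with hD
  -- the inequality for the dense sequence
  have h1 : ∀ i, |φ y (g i) - W₀ (g i) y| ≤ D * ‖g i‖ := by
    intro i
    choose z hz1 hz2 using fun n => (hF1 n y).2
    have h2 : Tendsto (fun n => z n (g i)) atTop (𝓝 (W₀ (g i) y)) := by
      have h3 : Tendsto (fun n => F n y (g i) - z n (g i)) atTop (𝓝 0) := by
        rw [tendsto_zero_iff_abs_tendsto_zero]
        have h4 : Tendsto (fun n : ℕ => (1 / 2 : ℝ) ^ n) atTop (𝓝 0) :=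
          tendsto_pow_atTop_nhds_zero_of_lt_one (by norm_num) (by norm_num)
        apply squeeze_zero' (Eventually.of_forall fun n => abs_nonneg _) _ h4
        filter_upwards [eventually_gt_atTop i] with n hn
        exact (hz2 n i hn).le
      have h4 := (hW₀y (g i) y).sub h3
      simpa using h4
    have h3 : Tendsto (fun n => |φ y (g i) - z n (g i)|) atTop (𝓝 |φ y (g i) - W₀ (g i) y|) :=
      (tendsto_const_nhds.sub h2).abs
    apply le_of_tendsto' h3
    intro n
    calc |φ y (g i) - z n (g i)| = |(φ y - z n) (g i)| := rfl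
      _ ≤ ‖φ y - z n‖ * ‖g i‖ := (φ y - z n).le_opNorm _
      _ ≤ D * ‖g i‖ := by
          gcongr
          exact (hz1 n).2.le
  have h2 : IsClosed {f : C(X, ℝ) | |φ y f - W₀ f y| ≤ D * ‖f‖} := by
    apply isClosed_le
    · apply Continuous.abs
      apply (φ y).continuous.sub
      exact (ContinuousEvalConst.continuous_eval_const y).comp
        (W₁.mkContinuous R hW₁b).continuous
    · exact continuous_const.mul continuous_norm
  exact hgd.induction_on (p := fun f => |φ y f - W₀ f y| ≤ D * ‖f‖) f h2 h1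

end Selection

end Pool.Agent.H96f76
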