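import Pool.Agent.H96f76.A

/-!
# Densities of the elements of an order interval, and an interpolation lemma
-/

set_option autoImplicit false
set_option linter.unusedSectionVars false
set_option linter.unusedVariables false

namespace Pool.Agent.H96f76

open MeasureTheory Set Filter Topology
open scoped ENNReal

variable {X : Type*} [MetricSpace X] [CompactSpace X] [MeasurableSpace X] [BorelSpace X]
  {l : Measure X} [IsFiniteMeasure l] {M : ℝ}

/-- Elements of the order interval have bounded densities. -/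
theorem exists_density (hM : 0 ≤ M) {ψ : StrongDual ℝ C(X, ℝ)} (hψ : ψ ∈ Kset l M) :
    ∃ u : X → ℝ, Measurable u ∧ (∀ x, |u x| ≤ M) ∧ ∀ f : C(X, ℝ), ψ f = ∫ x, f x * u x ∂l := by
  set T : C(X, ℝ) →L[ℝ] Lp ℝ 2 l := ContinuousMap.toLp (E := ℝ) 2 l ℝ with hT
  have hTd : DenseRange T := ContinuousMap.toLp_denseRange ℝ l ℝ (by norm_num)
  have hTae : ∀ f : C(X, ℝ), (T f : X → ℝ) =ᵐ[l] f := fun f => ContinuousMap.coeFn_toLp l f
  -- the integral of the absolute value is continuous on `L²`
  set one : Lp ℝ 2 l := T 1 with hone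
  have habs_int : ∀ g : Lp ℝ 2 l, ∫ x, |g x| ∂l ≤ ‖one‖ * ‖g‖ := by
    intro g
    have h1 : ∫ x, |g x| ∂l = inner ℝ one (|g|) := by
      rw [L2.inner_def]
      apply integral_congr_ae
      filter_upwards [hTae 1, Lp.coeFn_abs g] with x hx1 hx2
      rw [hx1, hx2]
      simp
    rw [h1]
    calc inner ℝ one (|g|) ≤ ‖one‖ * ‖|g|‖ := real_inner_le_norm _ _
      _ = ‖one‖ * ‖g‖ := by rw [norm_abs_eq_norm]
  have hint : ∀ g : Lp ℝ 2 l, Integrable (fun x => g x) l := fun g =>
    (Lp.memLp g).integrable (by norm_num)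
  have habs_cont : Continuous fun g : Lp ℝ 2 l => ∫ x, |g x| ∂l := by
    have h1 : LipschitzWith ⟨‖one‖, norm_nonneg _⟩ fun g : Lp ℝ 2 l => ∫ x, |g x| ∂l := by
      apply LipschitzWith.of_dist_le_mul
      intro g g'
      rw [Real.dist_eq, ← integral_sub (hint g).abs (hint g').abs]
      calc |∫ x, (|g x| - |g' x|) ∂l| ≤ ∫ x, |(|g x| - |g' x|)| ∂l := abs_integral_le_integral_abs
        _ ≤ ∫ x, |(g - g') x| ∂l := by
            apply integral_mono_ae ((hint g).abs.sub (hint g').abs).abs (hint (g - g')).abs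
            filter_upwards [Lp.coeFn_sub g g'] with x hx
            simp only [hx, Pi.sub_apply]
            exact abs_abs_sub_abs_le _ _
        _ ≤ ‖one‖ * ‖g - g'‖ := habs_int _
        _ = _ := by rw [dist_eq_norm]; rfl
    exact h1.continuous
  have hψT : ∀ f : C(X, ℝ), |ψ f| ≤ M * ∫ x, |T f x| ∂l := by
    intro f
    have h1 : ∫ x, |T f x| ∂l = ∫ x, |f x| ∂l := by
      apply integral_congr_ae
      filter_upwards [hTae f] with x hx
      rw [hx]
    rw [h1]
    exact hψ f
  have hb : ∀ f : C(X, ℝ), ‖ψ.toLinearMap f‖ ≤ (M * ‖one‖) * ‖T.toLinearMap f‖ := by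
    intro f
    refine (hψT f).trans ?_
    rw [mul_assoc]
    gcongr
    exact habs_int _
  set Ψ : Lp ℝ 2 l →L[ℝ] ℝ := ψ.toLinearMap.extendOfNorm T.toLinearMap with hΨ
  have hΨT : ∀ f, Ψ (T f) = ψ f := fun f => LinearMap.extendOfNorm_eq hTd ⟨_, hb⟩ f
  have hΨle : ∀ g : Lp ℝ 2 l, Ψ g ≤ M * ∫ x, |g x| ∂l := by
    intro g
    refine hTd.induction_on (p := fun g => Ψ g ≤ M * ∫ x, |g x| ∂l) g ?_ ?_
    · exact isClosed_le Ψ.continuous (continuous_const.mul habs_cont)
    · intro f
      rw [hΨT]
      exact (le_abs_self _).trans (hψT f)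
  set u₀ : Lp ℝ 2 l := (InnerProductSpace.toDual ℝ (Lp ℝ 2 l)).symm Ψ with hu₀
  have hu₀Ψ : ∀ g, inner ℝ u₀ g = Ψ g := fun g => InnerProductSpace.toDual_symm_apply
  -- bounds on sets
  have hset : ∀ s, MeasurableSet s → |∫ x in s, u₀ x ∂l| ≤ M * l.real s := by
    intro s hs
    have hls : l s ≠ ⊤ := measure_ne_top _ _
    set χ : Lp ℝ 2 l := indicatorConstLp 2 hs hls (1 : ℝ) with hχ
    have h1 : ∫ x in s, u₀ x ∂l = Ψ χ := by
      rw [← hu₀Ψ, real_inner_comm, L2.inner_indicatorConstLp_one]
    have h2 : ∫ x, |χ x| ∂l = l.real s := by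
      rw [← integral_indicator_one hs]
      apply integral_congr_ae
      filter_upwards [indicatorConstLp_coeFn (p := 2) (hs := hs) (hμs := hls) (c := (1 : ℝ))]
        with x hx
      rw [hx]
      by_cases h : x ∈ s
      · rw [indicator_of_mem h, indicator_of_mem h]; simp
      · rw [indicator_of_notMem h, indicator_of_notMem h]; simp
    have h3 : ∫ x, |(-χ) x| ∂l = l.real s := by
      rw [← h2]
      apply integral_congr_ae
      filter_upwards [Lp.coeFn_neg χ] with x hx
      rw [hx, Pi.neg_apply, abs_neg]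
    rw [h1, abs_le]
    constructor
    · have h4 := hΨle (-χ)
      rw [map_neg, h3] at h4
      linarith
    · have h4 := hΨle χ
      rwa [h2] at h4
  have hup : (fun x => u₀ x) ≤ᵐ[l] fun _ => M := by
    apply ae_le_of_forall_setIntegral_le (hint u₀) (integrable_const _)
    intro s hs _
    rw [setIntegral_const, smul_eq_mul, mul_comm]
    exact (le_abs_self _).trans (hset s hs)
  have hlow : (fun _ => -M) ≤ᵐ[l] fun x => u₀ x := by
    apply ae_le_of_forall_setIntegral_le (integrable_const _) (hint u₀)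
    intro s hs _
    rw [setIntegral_const, smul_eq_mul, mul_comm]
    have := (abs_le.1 (hset s hs)).1
    linarith
  refine ⟨fun x => max (-M) (min M (u₀ x)), ?_, ?_, ?_⟩
  · exact measurable_const.max (measurable_const.min (Lp.stronglyMeasurable u₀).measurable)
  · intro x
    rw [abs_le]
    exact ⟨le_max_left _ _, max_le (by linarith) (min_le_left _ _)⟩
  · intro f
    rw [← hΨT, ← hu₀Ψ, L2.inner_def]
    apply integral_congr_ae
    filter_upwards [hup, hlow, hTae f] with x h1 h2 h3
    rw [h3]
    have h1' : u₀ x ≤ M := h1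
    have h2' : -M ≤ u₀ x := h2
    show f x * u₀ x = _
    rw [min_eq_right h1', max_eq_right h2']

/-- Approximation of bounded measurable functions by continuous functions. -/
theorem approx {s : X → ℝ} (hs : Measurable s) (h1 : ∀ x, |s x| ≤ 1) {κ : ℝ} (hκ : 0 < κ) :
    ∃ f : C(X, ℝ), (∀ x, |f x| ≤ 1) ∧ ∫ x, |s x - f x| ∂l ≤ κ := by
  have hsi : Integrable s l := Integrable.of_bound hs.aestronglyMeasurable 1
    (Eventually.of_forall h1)
  obtain ⟨g, -, hg1, hg2, hg3⟩ := hsi.exists_hasCompactSupport_integral_sub_le hκ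
  refine ⟨⟨fun x => max (-1) (min 1 (g x)), by fun_prop⟩, ?_, ?_⟩
  · intro x
    show |max (-1) (min 1 (g x))| ≤ 1
    rw [abs_le]
    exact ⟨le_max_left _ _, max_le (by norm_num) (min_le_left _ _)⟩
  · refine le_trans ?_ hg1
    have hbd : ∀ x, |max (-1) (min 1 (g x))| ≤ 1 := by
      intro x
      rw [abs_le]
      exact ⟨le_max_left _ _, max_le (by norm_num) (min_le_left _ _)⟩
    apply integral_mono
    · apply Integrable.abs
      apply hsi.sub
      refine Integrable.of_bound (C := 1) ?_ (Eventually.of_forall hbd)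
      exact (by fun_prop : Continuous fun x => max (-1) (min 1 (g x))).aestronglyMeasurable
    · exact (hsi.sub hg3).norm
    · intro x
      show |s x - max (-1) (min 1 (g x))| ≤ ‖s x - g x‖
      rw [Real.norm_eq_abs]
      have hsx := abs_le.1 (h1 x)
      rcases le_total (g x) (-1) with h | h
      · rw [min_eq_right (by linarith), max_eq_left h]
        rw [abs_of_nonneg (by linarith), abs_of_nonneg (by linarith)]
        linarith
      · rcases le_total (g x) 1 with h' | h'
        · rw [min_eq_right h', max_eq_right h]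
        · rw [min_eq_left h', max_eq_right (by norm_num)]
          rw [abs_of_nonpos (by linarith), abs_of_nonpos (by linarith)]
          linarith

theorem integrable_mul {u : X → ℝ} (hu : Measurable u) {C : ℝ} (huC : ∀ x, |u x| ≤ C)
    (f : C(X, ℝ)) : Integrable (fun x => f x * u x) l := by
  refine Integrable.of_bound (C := ‖f‖ * C) (f.continuous.measurable.mul hu).aestronglyMeasurable
    (Eventually.of_forall fun x => ?_)
  rw [norm_mul]
  exact mul_le_mul (f.norm_coe_le_norm x) (huC x) (norm_nonneg _) (norm_nonneg _)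

/-- The norm of a functional with a density. -/
theorem l1_norm {u v : X → ℝ} (hu : Measurable u) (hv : Measurable v) (huM : ∀ x, |u x| ≤ M)
    (hvM : ∀ x, |v x| ≤ M) {a h : StrongDual ℝ C(X, ℝ)} (ha : ∀ f, a f = ∫ x, f x * u x ∂l)
    (hh : ∀ f, h f = ∫ x, f x * v x ∂l) : ∫ x, |v x - u x| ∂l ≤ ‖h - a‖ := by
  have hM : 0 ≤ M ∨ IsEmpty X := by
    by_cases hX : Nonempty X
    · obtain ⟨x⟩ := hX
      exact Or.inl ((abs_nonneg _).trans (huM x))
    · exact Or.inr (not_nonempty_iff.1 hX)
  rcases hM with hM | hX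
  swap
  · have : l = 0 := Measure.eq_zero_of_isEmpty l
    rw [this, integral_zero_measure]
    exact norm_nonneg (h - a)
  set s : X → ℝ := fun x => if 0 ≤ v x - u x then 1 else -1 with hs
  have hsm : Measurable s :=
    Measurable.ite (measurableSet_le measurable_const (hv.sub hu)) measurable_const measurable_const
  have hs1 : ∀ x, |s x| ≤ 1 := by
    intro x
    simp only [hs]
    split_ifs <;> simp
  have hsv : ∀ x, s x * (v x - u x) = |v x - u x| := by
    intro x
    simp only [hs]
    split_ifs with h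
    · rw [one_mul, abs_of_nonneg h]
    · rw [abs_of_neg (not_le.1 h)]; ring
  have hduM : ∀ x, |v x - u x| ≤ 2 * M := by
    intro x
    have := abs_sub (v x) (u x)
    linarith [huM x, hvM x]
  have hdm : Measurable fun x => v x - u x := hv.sub hu
  have key : ∀ κ : ℝ, 0 < κ → ∫ x, |v x - u x| ∂l ≤ ‖h - a‖ + 2 * M * κ := by
    intro κ hκ
    obtain ⟨f, hf1, hf2⟩ := approx (l := l) hsm hs1 hκ
    have e1 : (h - a) f = ∫ x, f x * (v x - u x) ∂l := by
      rw [sub_apply, ha, hh, ← integral_sub (integrable_mul hv hvM f) (integrable_mul hu huM f)]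
      congr 1
      ext x
      ring
    have e2 : (h - a) f ≤ ‖h - a‖ := by
      calc (h - a) f ≤ |(h - a) f| := le_abs_self _
        _ ≤ ‖h - a‖ * ‖f‖ := (h - a).le_opNorm f
        _ ≤ ‖h - a‖ * 1 := by gcongr; exact norm_le_one hf1
        _ = _ := mul_one _
    have hi1 : Integrable (fun x => |s x - f x|) l := by
      apply Integrable.abs
      apply Integrable.sub _ (integrable_C l f)
      exact Integrable.of_bound hsm.aestronglyMeasurable 1 (Eventually.of_forall hs1)
    have e3 : ∫ x, |v x - u x| ∂l ≤ ∫ x, (f x * (v x - u x) + 2 * M * |s x - f x|) ∂l := by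
      apply integral_mono
      · exact Integrable.of_bound hdm.abs.aestronglyMeasurable (2 * M) (Eventually.of_forall
          fun x => by rw [norm_abs_eq_norm]; exact hduM x)
      · exact (integrable_mul hdm hduM f).add (hi1.const_mul _)
      · intro x
        show |v x - u x| ≤ f x * (v x - u x) + 2 * M * |s x - f x|
        have h3 : |v x - u x| = f x * (v x - u x) + (s x - f x) * (v x - u x) := by
          rw [← hsv x]; ring
        have h4 : (s x - f x) * (v x - u x) ≤ |s x - f x| * (2 * M) := by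
          calc (s x - f x) * (v x - u x) ≤ |(s x - f x) * (v x - u x)| := le_abs_self _
            _ = |s x - f x| * |v x - u x| := abs_mul _ _
            _ ≤ |s x - f x| * (2 * M) := by gcongr; exact hduM x
        linarith
    rw [integral_add (integrable_mul hdm hduM f) (hi1.const_mul _), integral_const_mul] at e3
    have e4 : 2 * M * ∫ x, |s x - f x| ∂l ≤ 2 * M * κ := by gcongr
    linarith
  have h5 : Tendsto (fun κ : ℝ => ‖h - a‖ + 2 * M * κ) (𝓝[>] 0) (𝓝 (‖h - a‖ + 2 * M * 0)) :=
    ((continuous_const.add (continuous_const.mul continuous_id)).tendsto 0).mono_left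
      nhdsWithin_le_nhds
  rw [mul_zero, add_zero] at h5
  exact ge_of_tendsto h5 (by
    filter_upwards [self_mem_nhdsWithin] with κ hκ
    exact key κ hκ)

end Pool.Agent.H96f76
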