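import Pool.Agent.H96f76.A

/-!
# A gliding hump argument
-/

set_option autoImplicit false
set_option linter.unusedSectionVars false
set_option linter.unusedVariables false

namespace Pool.Agent.H96f76

open MeasureTheory Set Filter Topology
open scoped ENNReal

section Core

variable {Z : Type*} [NormedAddCommGroup Z] [NormedSpace ℝ Z]

/-- Hahn-Banach separation of a point from a closed subspace. -/
theorem sep (W : Submodule ℝ Z) (hW : IsClosed (W : Set Z)) {x : Z} (hx : x ∉ W) :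
    ∃ f : StrongDual ℝ Z, (∀ w ∈ W, f w = 0) ∧ f x ≠ 0 := by
  have := hW
  have hx' : (W.mkQ x : Z ⧸ W) ≠ 0 := by
    intro hcon
    exact hx ((Submodule.Quotient.mk_eq_zero W).1 hcon)
  obtain ⟨g, hg⟩ := SeparatingDual.exists_ne_zero (R := ℝ) hx'
  refine ⟨g.comp W.mkQL, fun w hw => ?_, hg⟩
  have h1 : (W.mkQ w : Z ⧸ W) = 0 := (Submodule.Quotient.mk_eq_zero W).2 hw
  show g (W.mkQ w) = 0
  rw [h1, map_zero]

/-- The gliding hump argument. -/
theorem schur_core (u : Set ℕ → ℕ → Z) (hu1 : ∀ A j, ‖u A j‖ ≤ 1)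
    (hu2 : ∀ A B, Disjoint A B → ∀ j, u (A ∪ B) j = u A j + u B j)
    (q : ℕ → StrongDual ℝ Z) {ε : ℝ} (hε : 0 < ε)
    (htail : ∀ n, ∀ δ : ℝ, 0 < δ → ∃ N, ∀ A : Set ℕ, (∀ k ∈ A, N ≤ k) → ∀ j, |q n (u A j)| ≤ δ)
    (hmain : ∀ n, ∀ᶠ j in atTop, ε ≤ q n (u {n} j))
    (hwc : ∀ U : Ultrafilter ℕ, ∃ z : StrongDual ℝ Z, ∀ Φ : StrongDual ℝ (StrongDual ℝ Z),
      Tendsto (fun n => Φ (q n)) U (𝓝 (Φ z))) : False := by
  classical
  set U : Ultrafilter ℕ := hyperfilter ℕ with hU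
  have hUle : (U : Filter ℕ) ≤ atTop := by
    rw [← Nat.cofinite_eq_atTop]
    exact hyperfilter_le_cofinite
  -- the functionals
  have hF : ∀ A : Set ℕ, ∃ G : StrongDual ℝ (StrongDual ℝ Z), ‖G‖ ≤ 1 ∧
      ∀ p : StrongDual ℝ Z, Tendsto (fun j => p (u A j)) U (𝓝 (G p)) := by
    intro A
    obtain ⟨G, hG1, hG2⟩ := exists_weakstar_limit U
      (fun j => NormedSpace.inclusionInDoubleDual ℝ Z (u A j)) (C := 1) (fun j => by
        exact (NormedSpace.double_dual_bound ℝ Z (u A j)).trans (hu1 A j))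
    exact ⟨G, hG1, fun p => hG2 p⟩
  choose F hF1 hF2 using hF
  have hFadd : ∀ A B, Disjoint A B → ∀ p, F (A ∪ B) p = F A p + F B p := by
    intro A B hAB p
    refine tendsto_nhds_unique (hF2 (A ∪ B) p) ?_
    have h1 := (hF2 A p).add (hF2 B p)
    refine h1.congr fun j => ?_
    rw [hu2 A B hAB, map_add]
  have hFempty : ∀ p, F ∅ p = 0 := by
    intro p
    have h1 := hFadd ∅ ∅ (by simp) p
    rw [union_empty] at h1
    linarith
  have hFfin : ∀ (S : Finset ℕ) p, F (S : Set ℕ) p = ∑ x ∈ S, F {x} p := by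
    intro S p
    induction S using Finset.induction_on with
    | empty => simp [hFempty]
    | insert a S ha ih =>
      rw [Finset.sum_insert ha, Finset.coe_insert, insert_eq, hFadd, ih]
      rw [Set.disjoint_singleton_left]
      exact fun h => ha (Finset.mem_coe.1 h)
  have hFbd : ∀ A p, |F A p| ≤ ‖p‖ := by
    intro A p
    calc |F A p| ≤ ‖F A‖ * ‖p‖ := (F A).le_opNorm p
      _ ≤ 1 * ‖p‖ := by gcongr; exact hF1 A
      _ = ‖p‖ := one_mul _
  -- the tail subspace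
  let T : Submodule ℝ (StrongDual ℝ Z) :=
    { carrier := {p | ∀ δ : ℝ, 0 < δ → ∃ N, ∀ A : Set ℕ, (∀ k ∈ A, N ≤ k) → |F A p| ≤ δ}
      zero_mem' := by
        intro δ hδ
        exact ⟨0, fun A _ => by rw [map_zero, abs_zero]; exact hδ.le⟩
      add_mem' := by
        intro p p' hp hp' δ hδ
        obtain ⟨N, hN⟩ := hp (δ / 2) (by positivity)
        obtain ⟨N', hN'⟩ := hp' (δ / 2) (by positivity)
        refine ⟨max N N', fun A hA => ?_⟩
        rw [map_add]
        have h1 := hN A fun k hk => (le_max_left _ _).trans (hA k hk)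
        have h2 := hN' A fun k hk => (le_max_right _ _).trans (hA k hk)
        exact (abs_add_le _ _).trans (by linarith)
      smul_mem' := by
        intro c p hp δ hδ
        obtain ⟨N, hN⟩ := hp (δ / (|c| + 1)) (by positivity)
        refine ⟨N, fun A hA => ?_⟩
        rw [map_smul, smul_eq_mul, abs_mul]
        calc |c| * |F A p| ≤ (|c| + 1) * (δ / (|c| + 1)) := by
              apply mul_le_mul (by linarith) (hN A hA) (abs_nonneg _) (by positivity)
          _ = δ := by field_simp }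
  have hTmem : ∀ p, p ∈ T ↔ ∀ δ : ℝ, 0 < δ → ∃ N, ∀ A : Set ℕ, (∀ k ∈ A, N ≤ k) → |F A p| ≤ δ :=
    fun p => Iff.rfl
  have hTc : IsClosed (T : Set (StrongDual ℝ Z)) := by
    apply isClosed_of_closure_subset
    intro p hp
    rw [SetLike.mem_coe, hTmem]
    intro δ hδ
    obtain ⟨p', hp', hpp'⟩ := Metric.mem_closure_iff.1 hp (δ / 2) (by positivity)
    rw [dist_eq_norm] at hpp'
    obtain ⟨N, hN⟩ := (hTmem p').1 hp' (δ / 2) (by positivity)
    refine ⟨N, fun A hA => ?_⟩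
    have h1 := hN A hA
    have h2 := hFbd A (p - p')
    have h3 : F A p = F A p' + F A (p - p') := by rw [← map_add]; congr 1; abel
    rw [h3]
    exact (abs_add_le _ _).trans (by linarith)
  have hqT : ∀ n, q n ∈ T := by
    intro n
    rw [hTmem]
    intro δ hδ
    obtain ⟨N, hN⟩ := htail n δ hδ
    exact ⟨N, fun A hA => le_of_tendsto' (hF2 A (q n)).abs fun j => hN A hA j⟩
  have hlimT : ∀ (V : Ultrafilter ℕ) (z : StrongDual ℝ Z) (s : ℕ → StrongDual ℝ Z), (∀ n, s n ∈ T) →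
      (∀ Φ : StrongDual ℝ (StrongDual ℝ Z), Tendsto (fun n => Φ (s n)) V (𝓝 (Φ z))) → z ∈ T := by
    intro V z s hs hz
    by_contra hcon
    obtain ⟨Φ, hΦ1, hΦ2⟩ := sep T hTc hcon
    apply hΦ2
    refine tendsto_nhds_unique (hz Φ) ?_
    have h1 : (fun n => Φ (s n)) = fun _ => 0 := by
      funext n
      exact hΦ1 _ (hs n)
    rw [h1]
    exact tendsto_const_nhds
  -- the first weak limit
  obtain ⟨z, hz⟩ := hwc U
  have hzT : z ∈ T := hlimT U z q hqT hz
  set r : ℕ → StrongDual ℝ Z := fun n => q n - z with hr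
  have hrT : ∀ n, r n ∈ T := fun n => T.sub_mem (hqT n) hzT
  have hrlim : ∀ Φ : StrongDual ℝ (StrongDual ℝ Z), Tendsto (fun n => Φ (r n)) U (𝓝 0) := by
    intro Φ
    have h1 := (hz Φ).sub_const (Φ z)
    rw [sub_self] at h1
    refine h1.congr fun n => ?_
    rw [hr]
    simp only [map_sub]
  have hFq : ∀ n, ε ≤ F {n} (q n) := by
    intro n
    exact ge_of_tendsto (hF2 {n} (q n)) (hUle (hmain n))
  set δ : ℝ := ε / 16 with hδ
  have hδ0 : 0 < δ := by positivity
  have hP : ∀ᶠ n in (U : Filter ℕ), ε / 2 ≤ F {n} (r n) := by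
    obtain ⟨N, hN⟩ := (hTmem z).1 hzT (ε / 2) (by positivity)
    filter_upwards [hUle (eventually_ge_atTop N)] with n hn
    have h1 := hN {n} (by rintro k rfl; exact hn)
    have h2 := abs_le.1 h1
    have h3 := hFq n
    rw [hr]
    simp only [map_sub]
    linarith
  -- the selection of the subsequence
  obtain ⟨s, hs1, hs2⟩ := exists_seq_of_forall_finset_exists (fun n : ℕ => ε / 2 ≤ F {n} (r n))
    (fun x y => x < y ∧ |F {x} (r y)| ≤ δ * (1 / 2) ^ (x + 1) ∧
      ∀ B : Set ℕ, (∀ k ∈ B, y ≤ k) → |F B (r x)| ≤ δ) (by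
    intro S hS
    have e1 : ∀ x ∈ S, ∀ᶠ y in (U : Filter ℕ), x < y ∧ |F {x} (r y)| ≤ δ * (1 / 2) ^ (x + 1) ∧
        ∀ B : Set ℕ, (∀ k ∈ B, y ≤ k) → |F B (r x)| ≤ δ := by
      intro x _
      obtain ⟨N, hN⟩ := (hTmem _).1 (hrT x) δ hδ0
      have h1 : ∀ᶠ y in (U : Filter ℕ), |F {x} (r y)| < δ * (1 / 2) ^ (x + 1) := by
        have h2 := (hrlim (F {x})).abs
        rw [abs_zero] at h2
        exact h2.eventually (gt_mem_nhds (by positivity))
      filter_upwards [h1, hUle (eventually_gt_atTop x), hUle (eventually_ge_atTop N)]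
        with y hy1 hy2 hy3
      exact ⟨hy2, hy1.le, fun B hB => hN B fun k hk => hy3.trans (hB k hk)⟩
    have e2 : ∀ᶠ y in (U : Filter ℕ), ∀ x ∈ S, x < y ∧ |F {x} (r y)| ≤ δ * (1 / 2) ^ (x + 1) ∧
        ∀ B : Set ℕ, (∀ k ∈ B, y ≤ k) → |F B (r x)| ≤ δ := by
      rw [Filter.eventually_all_finset]
      exact e1
    exact (hP.and e2).exists)
  have hsmono : StrictMono s := strictMono_nat_of_lt_succ fun n => (hs2 n (n + 1) (by omega)).1
  set A : Set ℕ := range s with hA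
  have hhalf : ∀ G : Finset ℕ, ∑ x ∈ G, δ * (1 / 2 : ℝ) ^ (x + 1) ≤ δ := by
    intro G
    rw [← Finset.mul_sum]
    have h1 : ∑ x ∈ G, (1 / 2 : ℝ) ^ (x + 1) ≤ 1 := by
      calc ∑ x ∈ G, (1 / 2 : ℝ) ^ (x + 1) = ∑ x ∈ G, (1 / 2 : ℝ) ^ x * (1 / 2) := by
            simp only [pow_succ]
        _ ≤ ∑' x : ℕ, (1 / 2 : ℝ) ^ x * (1 / 2) := by
            apply Summable.sum_le_tsum
            · intro n _; positivity
            · exact summable_geometric_two.mul_right _
        _ = 1 := by rw [tsum_mul_right, tsum_geometric_two]; norm_num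
    nlinarith
  -- the estimate on finite parts
  have hfinpart : ∀ (p : StrongDual ℝ Z) (N : ℕ),
      (∀ x ∈ A, x < N → |F {x} p| ≤ δ * (1 / 2) ^ (x + 1)) → |F (A ∩ Iio N) p| ≤ δ := by
    intro p N hp
    have h1 : A ∩ Iio N = (((Finset.range N).filter (fun x => x ∈ A) : Finset ℕ) : Set ℕ) := by
      ext x
      simp [and_comm]
    rw [h1, hFfin]
    calc |∑ x ∈ (Finset.range N).filter (fun x => x ∈ A), F {x} p|
        ≤ ∑ x ∈ (Finset.range N).filter (fun x => x ∈ A), |F {x} p| :=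
          Finset.abs_sum_le_sum_abs _ _
      _ ≤ ∑ x ∈ (Finset.range N).filter (fun x => x ∈ A), δ * (1 / 2 : ℝ) ^ (x + 1) := by
          apply Finset.sum_le_sum
          intro x hx
          rw [Finset.mem_filter, Finset.mem_range] at hx
          exact hp x hx.2 hx.1
      _ ≤ δ := hhalf _
  have hlow : ∀ j, ε / 2 - 2 * δ ≤ F A (r (s j)) := by
    intro j
    have h1 : A = (A ∩ Iio (s j)) ∪ ({s j} ∪ (A ∩ Ioi (s j))) := by
      ext x
      constructor
      · intro hx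
        rcases lt_trichotomy x (s j) with h | h | h
        · exact Or.inl ⟨hx, h⟩
        · exact Or.inr (Or.inl h)
        · exact Or.inr (Or.inr ⟨hx, h⟩)
      · rintro (h | h | h)
        · exact h.1
        · rw [mem_singleton_iff] at h
          rw [h]
          exact mem_range_self j
        · exact h.1
    rw [h1, hFadd, hFadd]
    · have h2 := hfinpart (r (s j)) (s j) (by
        rintro x ⟨i, rfl⟩ hlt
        exact (hs2 i j (hsmono.lt_iff_lt.1 hlt)).2.1)
      have h3 : |F (A ∩ Ioi (s j)) (r (s j))| ≤ δ := by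
        apply (hs2 j (j + 1) (by omega)).2.2
        rintro k ⟨⟨i, rfl⟩, hk⟩
        have : j < i := hsmono.lt_iff_lt.1 hk
        exact hsmono.monotone this
      have h4 := hs1 j
      have h5 := abs_le.1 h2
      have h6 := abs_le.1 h3
      linarith
    · rw [Set.disjoint_singleton_left]
      exact fun h => lt_irrefl (s j) (mem_Ioi.1 h.2)
    · rw [Set.disjoint_left]
      rintro x ⟨_, hx⟩ (h | h)
      · rw [mem_singleton_iff] at h
        rw [h] at hx
        exact lt_irrefl (s j) (mem_Iio.1 hx)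
      · exact lt_irrefl _ (lt_trans (mem_Iio.1 hx) h.2)
  -- the second weak limit
  obtain ⟨z', hz'⟩ := hwc (U.map s)
  have hz'' : ∀ Φ : StrongDual ℝ (StrongDual ℝ Z),
      Tendsto (fun j => Φ (r (s j))) U (𝓝 (Φ (z' - z))) := by
    intro Φ
    have h1 : Tendsto (fun j => Φ (q (s j))) U (𝓝 (Φ z')) := (hz' Φ).comp tendsto_map
    have h2 := h1.sub_const (Φ z)
    rw [← map_sub] at h2
    refine h2.congr fun n => ?_
    rw [hr]
    simp only [map_sub]
  have hρT : z' - z ∈ T := hlimT U _ (fun j => r (s j)) (fun j => hrT _) hz''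
  have h1 : ε / 2 - 2 * δ ≤ F A (z' - z) := ge_of_tendsto' (hz'' (F A)) hlow
  obtain ⟨N, hN⟩ := (hTmem _).1 hρT δ hδ0
  have h2 : |F (A ∩ Iio N) (z' - z)| ≤ δ := by
    apply hfinpart
    rintro x ⟨i, rfl⟩ _
    apply le_of_tendsto (hz'' (F {s i})).abs
    filter_upwards [hUle (eventually_gt_atTop i)] with j hj
    exact (hs2 i j hj).2.1
  have h3 : |F (A ∩ Ici N) (z' - z)| ≤ δ := hN _ fun k hk => hk.2
  have h4 : F A (z' - z) = F (A ∩ Iio N) (z' - z) + F (A ∩ Ici N) (z' - z) := by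
    rw [← hFadd]
    · congr 2
      rw [← inter_union_distrib_left, Iio_union_Ici, inter_univ]
    · rw [Set.disjoint_left]
      rintro x ⟨_, hx⟩ ⟨_, hx'⟩
      exact absurd (mem_Iio.1 hx) (not_lt.2 (mem_Ici.1 hx'))
  have h5 := abs_le.1 h2
  have h6 := abs_le.1 h3
  have h7 : δ * 16 = ε := by rw [hδ]; ring
  linarith

end Core

section CX

variable {X : Type*} [MetricSpace X] [CompactSpace X] [MeasurableSpace X] [BorelSpace X]

open Classical in
/-- The disjointified sums. -/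
noncomputable def gg (f : ℕ → C(X, ℝ)) (A : Set ℕ) : ℕ → C(X, ℝ)
  | 0 => 0
  | j + 1 => (1 - |f j|) * gg f A j + if j ∈ A then f j else 0

theorem gg_succ_mem (f : ℕ → C(X, ℝ)) {A : Set ℕ} {j : ℕ} (h : j ∈ A) (x : X) :
    gg f A (j + 1) x = (1 - |f j x|) * gg f A j x + f j x := by
  rw [gg, if_pos h]; rfl

theorem gg_succ_notMem (f : ℕ → C(X, ℝ)) {A : Set ℕ} {j : ℕ} (h : j ∉ A) (x : X) :
    gg f A (j + 1) x = (1 - |f j x|) * gg f A j x := by
  rw [gg, if_neg h, add_zero]; rfl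

theorem gg_abs_le {f : ℕ → C(X, ℝ)} (hf : ∀ n x, |f n x| ≤ 1) (A : Set ℕ) (j : ℕ) (x : X) :
    |gg f A j x| ≤ 1 := by
  induction j with
  | zero => simp [gg]
  | succ j ih =>
    have h1 : |(1 - |f j x|) * gg f A j x| ≤ 1 - |f j x| := by
      rw [abs_mul, abs_of_nonneg (by linarith [hf j x])]
      calc (1 - |f j x|) * |gg f A j x| ≤ (1 - |f j x|) * 1 := by
            apply mul_le_mul_of_nonneg_left ih; linarith [hf j x]
        _ = _ := mul_one _
    by_cases h : j ∈ A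
    · rw [gg_succ_mem f h]
      have := abs_add_le ((1 - |f j x|) * gg f A j x) (f j x)
      linarith
    · rw [gg_succ_notMem f h]
      have := abs_nonneg (f j x)
      linarith

theorem gg_add (f : ℕ → C(X, ℝ)) {A B : Set ℕ} (hAB : Disjoint A B) (j : ℕ) :
    gg f (A ∪ B) j = gg f A j + gg f B j := by
  ext x
  induction j with
  | zero => simp [gg]
  | succ j ih =>
    rw [ContinuousMap.add_apply] at ih ⊢
    by_cases hA : j ∈ A
    · have hB : j ∉ B := Set.disjoint_left.1 hAB hA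
      rw [gg_succ_mem f (Or.inl hA : j ∈ A ∪ B), gg_succ_mem f hA, gg_succ_notMem f hB, ih]
      ring
    · by_cases hB : j ∈ B
      · rw [gg_succ_mem f (Or.inr hB : j ∈ A ∪ B), gg_succ_notMem f hA, gg_succ_mem f hB, ih]
        ring
      · rw [gg_succ_notMem f (by rintro (h | h) <;> contradiction : j ∉ A ∪ B),
          gg_succ_notMem f hA, gg_succ_notMem f hB, ih]
        ring

theorem gg_tail {f : ℕ → C(X, ℝ)} (hf : ∀ n x, |f n x| ≤ 1) {A : Set ℕ} {N : ℕ}
    (hA : ∀ k ∈ A, N ≤ k) (j : ℕ) (x : X) : |gg f A j x| ≤ ∑ k ∈ Finset.Ico N j, |f k x| := by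
  induction j with
  | zero => simp [gg]
  | succ j ih =>
    have h1 : |(1 - |f j x|) * gg f A j x| ≤ |gg f A j x| := by
      rw [abs_mul, abs_of_nonneg (by linarith [hf j x])]
      calc (1 - |f j x|) * |gg f A j x| ≤ 1 * |gg f A j x| := by
            gcongr; linarith [abs_nonneg (f j x)]
        _ = _ := one_mul _
    by_cases h : j ∈ A
    · rw [gg_succ_mem f h, Finset.sum_Ico_succ_top (hA j h)]
      have := abs_add_le ((1 - |f j x|) * gg f A j x) (f j x)
      linarith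
    · rw [gg_succ_notMem f h]
      refine (h1.trans ih).trans ?_
      apply Finset.sum_le_sum_of_subset_of_nonneg
      · exact Finset.Ico_subset_Ico le_rfl (Nat.le_succ j)
      · intro i _ _; exact abs_nonneg _

theorem gg_main {f : ℕ → C(X, ℝ)} (hf : ∀ n x, |f n x| ≤ 1) (n j : ℕ) (hj : n < j) (x : X) :
    |gg f {n} j x - f n x| ≤ ∑ k ∈ Finset.Ico (n + 1) j, |f k x| := by
  have h0 : ∀ m ≤ n, gg f {n} m x = 0 := by
    intro m
    induction m with
    | zero => intro _; simp [gg]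
    | succ m ih =>
      intro hm
      rw [gg_succ_notMem f (by rw [mem_singleton_iff]; omega), ih (by omega), mul_zero]
  induction j, hj using Nat.le_induction with
  | base =>
    rw [gg_succ_mem f (mem_singleton n), h0 n le_rfl]
    simp
  | succ j hj ih =>
    rw [gg_succ_notMem f (by rw [mem_singleton_iff]; omega), Finset.sum_Ico_succ_top hj]
    have h1 := gg_abs_le hf {n} j x
    have h2 : |(|f j x| * gg f {n} j x)| ≤ |f j x| := by
      rw [abs_mul, abs_abs]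
      calc |f j x| * |gg f {n} j x| ≤ |f j x| * 1 := by gcongr
        _ = _ := mul_one _
    have h3 : (1 - |f j x|) * gg f {n} j x - f n x =
        (gg f {n} j x - f n x) - |f j x| * gg f {n} j x := by ring
    rw [h3]
    have := abs_sub (gg f {n} j x - f n x) (|f j x| * gg f {n} j x)
    linarith

theorem geom_tail (N j : ℕ) : ∑ k ∈ Finset.Ico N j, (1 / 4 : ℝ) ^ k ≤ 2 * (1 / 4) ^ N := by
  rcases le_total j N with h | h
  · rw [Finset.Ico_eq_empty (by omega), Finset.sum_empty]; positivity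
  · have h1 : ∀ j, N ≤ j → ∑ k ∈ Finset.Ico N j, (1 / 4 : ℝ) ^ k ≤
        2 * (1 / 4) ^ N - 2 * (1 / 4) ^ j := by
      intro j hj
      induction j, hj using Nat.le_induction with
      | base => simp
      | succ j hj ih =>
        rw [Finset.sum_Ico_succ_top hj, pow_succ]
        have : (0 : ℝ) < (1 / 4) ^ j := by positivity
        linarith
    have := h1 j h
    have h2 : (0 : ℝ) < (1 / 4) ^ j := by positivity
    linarith

/-- The contradiction for functionals on `C(X)`. -/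
theorem schur_CX (q : ℕ → StrongDual ℝ C(X, ℝ)) (ν : ℕ → Measure X) [∀ n, IsFiniteMeasure (ν n)]
    (hν : ∀ n f, |q n f| ≤ ∫ x, |f x| ∂(ν n)) (f : ℕ → C(X, ℝ)) (hf : ∀ n x, |f n x| ≤ 1)
    {ε : ℝ} (hε : 0 < ε) (hqf : ∀ n, ε ≤ q n (f n))
    (hsm : ∀ m n, m < n → ∫ x, |f n x| ∂(ν m) ≤ ε / 8 * (1 / 4) ^ n)
    (hwc : ∀ U : Ultrafilter ℕ, ∃ z : StrongDual ℝ C(X, ℝ),
      ∀ Φ : StrongDual ℝ (StrongDual ℝ C(X, ℝ)), Tendsto (fun n => Φ (q n)) U (𝓝 (Φ z))) :
    False := by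
  -- the basic estimate
  have hbasic : ∀ (n N : ℕ), n < N → ∀ (w : C(X, ℝ)) (j : ℕ),
      (∀ x, |w x| ≤ ∑ k ∈ Finset.Ico N j, |f k x|) → |q n w| ≤ ε / 4 * (1 / 4) ^ N := by
    intro n N hnN w j hw
    calc |q n w| ≤ ∫ x, |w x| ∂(ν n) := hν n w
      _ ≤ ∫ x, ∑ k ∈ Finset.Ico N j, |f k x| ∂(ν n) := by
          apply integral_mono (integrable_abs _ w)
          · exact integrable_finsetSum _ fun k _ => integrable_abs _ (f k)
          · exact hw
      _ = ∑ k ∈ Finset.Ico N j, ∫ x, |f k x| ∂(ν n) :=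
          integral_finsetSum _ fun k _ => integrable_abs _ (f k)
      _ ≤ ∑ k ∈ Finset.Ico N j, ε / 8 * (1 / 4) ^ k := by
          apply Finset.sum_le_sum
          intro k hk
          exact hsm n k (lt_of_lt_of_le hnN (Finset.mem_Ico.1 hk).1)
      _ = ε / 8 * ∑ k ∈ Finset.Ico N j, (1 / 4 : ℝ) ^ k := by rw [Finset.mul_sum]
      _ ≤ ε / 8 * (2 * (1 / 4) ^ N) := by gcongr; exact geom_tail N j
      _ = ε / 4 * (1 / 4) ^ N := by ring
  refine schur_core (fun A j => gg f A j) (fun A j => norm_le_one (gg_abs_le hf A j))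
    (fun A B hAB j => gg_add f hAB j) q (half_pos hε) ?_ ?_ hwc
  · intro n δ hδ
    have h1 : Tendsto (fun N : ℕ => ε / 4 * (1 / 4 : ℝ) ^ N) atTop (𝓝 (ε / 4 * 0)) :=
      (tendsto_pow_atTop_nhds_zero_of_lt_one (by norm_num) (by norm_num)).const_mul _
    rw [mul_zero] at h1
    obtain ⟨N, hN1, hN2⟩ := ((h1.eventually (gt_mem_nhds hδ)).and (eventually_gt_atTop n)).exists
    refine ⟨N, fun A hA j => ?_⟩
    exact (hbasic n N hN2 _ j (gg_tail hf hA j)).trans hN1.le
  · intro n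
    filter_upwards [eventually_gt_atTop n] with j hj
    have h1 := hbasic n (n + 1) (by omega) (gg f {n} j - f n) j (gg_main hf n j hj)
    have h2 : (1 / 4 : ℝ) ^ (n + 1) ≤ 1 := pow_le_one₀ (by norm_num) (by norm_num)
    have h3 : ε / 4 * (1 / 4 : ℝ) ^ (n + 1) ≤ ε / 4 * 1 := by gcongr
    rw [map_sub] at h1
    have h4 := abs_le.1 h1
    have h5 := hqf n
    linarith

/-- Relatively weakly compact families are almost order bounded. -/
theorem almost_order_bounded {I : Type*} (q : I → StrongDual ℝ C(X, ℝ)) (ν : I → Measure X)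
    [∀ i, IsFiniteMeasure (ν i)] (hν : ∀ i f, |q i f| ≤ ∫ x, |f x| ∂(ν i)) {C : ℝ}
    (hC : ∀ i, ‖q i‖ ≤ C)
    (hwc : ∀ (s : ℕ → I) (U : Ultrafilter ℕ), ∃ z : StrongDual ℝ C(X, ℝ),
      ∀ Φ : StrongDual ℝ (StrongDual ℝ C(X, ℝ)), Tendsto (fun n => Φ (q (s n))) U (𝓝 (Φ z)))
    {ε : ℝ} (hε : 0 < ε) :
    ∃ (S : Finset I) (M : ℝ), 0 ≤ M ∧ ∀ i (f : C(X, ℝ)),
      |q i f| ≤ M * ∑ j ∈ S, ∫ x, |f x| ∂(ν j) + ε * ‖f‖ := by
  classical
  by_contra hcon
  push Not at hcon
  -- normalised version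
  have hcon' : ∀ (S : Finset I) (M : ℝ), 0 ≤ M → ∃ i, ∃ f : C(X, ℝ), (∀ x, |f x| ≤ 1) ∧
      M * ∑ j ∈ S, ∫ x, |f x| ∂(ν j) + ε ≤ q i f := by
    intro S M hM
    obtain ⟨i, f, hif⟩ := hcon S M hM
    have hS0 : 0 ≤ M * ∑ j ∈ S, ∫ x, |f x| ∂(ν j) := by positivity
    have hf0 : f ≠ 0 := by
      rintro rfl
      simp at hif
    have hn : 0 < ‖f‖ := norm_pos_iff.2 hf0
    -- choose the sign
    obtain ⟨θ, hθ1, hθ2⟩ : ∃ θ : ℝ, |θ| = 1 ∧ q i (θ • f) = |q i f| := by
      rcases le_total 0 (q i f) with h | h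
      · exact ⟨1, abs_one, by rw [one_smul, abs_of_nonneg h]⟩
      · exact ⟨-1, by rw [abs_neg, abs_one], by rw [map_smul, smul_eq_mul, abs_of_nonpos h]; ring⟩
    refine ⟨i, ‖f‖⁻¹ • (θ • f), fun x => ?_, ?_⟩
    · rw [ContinuousMap.smul_apply, ContinuousMap.smul_apply, smul_eq_mul, smul_eq_mul, abs_mul,
        abs_mul, hθ1, one_mul, abs_inv, abs_norm, inv_mul_le_iff₀ hn, mul_one]
      exact f.norm_coe_le_norm x
    · have h2 : ∀ j, ∫ x, |(‖f‖⁻¹ • (θ • f)) x| ∂(ν j) = ‖f‖⁻¹ * ∫ x, |f x| ∂(ν j) := by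
        intro j
        rw [← integral_const_mul]
        congr 1
        ext x
        rw [ContinuousMap.smul_apply, ContinuousMap.smul_apply, smul_eq_mul, smul_eq_mul, abs_mul,
          abs_mul, hθ1, one_mul, abs_inv, abs_norm]
      rw [map_smul, hθ2, smul_eq_mul]
      simp only [h2]
      rw [← Finset.mul_sum]
      have h3 : ‖f‖⁻¹ * (M * ∑ j ∈ S, ∫ x, |f x| ∂(ν j) + ε * ‖f‖) ≤ ‖f‖⁻¹ * |q i f| := by
        gcongr
      have h4 : ‖f‖⁻¹ * (M * ∑ j ∈ S, ∫ x, |f x| ∂(ν j) + ε * ‖f‖) =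
          M * (‖f‖⁻¹ * ∑ j ∈ S, ∫ x, |f x| ∂(ν j)) + ε := by
        field_simp
      rw [h4] at h3
      exact h3
  -- the sequence
  set C' : ℝ := |C| + 1 with hC'
  have hC'0 : 0 < C' := by positivity
  have hqC' : ∀ i (f : C(X, ℝ)), (∀ x, |f x| ≤ 1) → q i f ≤ C' := by
    intro i f hf
    calc q i f ≤ |q i f| := le_abs_self _
      _ ≤ ‖q i‖ * ‖f‖ := (q i).le_opNorm f
      _ ≤ C' * 1 := by
          apply mul_le_mul _ (norm_le_one hf) (norm_nonneg _) hC'0.le
          have := hC i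
          have := le_abs_self C
          linarith
      _ = C' := mul_one _
  obtain ⟨a, ha1, ha2⟩ := exists_seq_of_forall_finset_exists
    (fun p : I × C(X, ℝ) × ℕ => (∀ x, |p.2.1 x| ≤ 1) ∧ ε ≤ q p.1 p.2.1)
    (fun p p' => p.2.2 < p'.2.2 ∧ ∫ x, |p'.2.1 x| ∂(ν p.1) ≤ ε / 8 * (1 / 4) ^ p'.2.2) (by
    intro S _
    set e : ℕ := (S.sup fun p => p.2.2) + 1 with he
    set κ : ℝ := ε / 8 * (1 / 4) ^ e with hκ
    have hκ0 : 0 < κ := by positivity
    obtain ⟨i, f, hf, hif⟩ := hcon' (S.image fun p => p.1) (C' / κ) (by positivity)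
    refine ⟨(i, f, e), ⟨hf, ?_⟩, fun p hp => ⟨?_, ?_⟩⟩
    · have : 0 ≤ C' / κ * ∑ j ∈ S.image fun p => p.1, ∫ x, |f x| ∂(ν j) := by positivity
      simp only
      linarith
    · have := Finset.le_sup (f := fun p : I × C(X, ℝ) × ℕ => p.2.2) hp
      simp only at this ⊢
      omega
    · have h1 : ∫ x, |f x| ∂(ν p.1) ≤ ∑ j ∈ S.image fun p => p.1, ∫ x, |f x| ∂(ν j) :=
        Finset.single_le_sum (f := fun j => ∫ x, |f x| ∂(ν j))
          (fun j _ => integral_nonneg fun x => abs_nonneg _) (Finset.mem_image_of_mem _ hp)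
      have h2 := hqC' i f hf
      have h3 : C' / κ * ∑ j ∈ S.image fun p => p.1, ∫ x, |f x| ∂(ν j) ≤ C' := by linarith
      have h4 : ∑ j ∈ S.image fun p => p.1, ∫ x, |f x| ∂(ν j) ≤ κ := by
        rw [div_mul_eq_mul_div, div_le_iff₀ hκ0] at h3
        exact le_of_mul_le_mul_left h3 hC'0
      exact h1.trans h4)
  have hmono : StrictMono fun n => (a n).2.2 :=
    strictMono_nat_of_lt_succ fun n => (ha2 n (n + 1) (by omega)).1
  refine schur_CX (fun n => q (a n).1) (fun n => ν (a n).1) (fun n f => hν _ f)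
    (fun n => (a n).2.1) (fun n => (ha1 n).1) hε (fun n => (ha1 n).2) ?_ (hwc fun n => (a n).1)
  intro m n hmn
  refine (ha2 m n hmn).2.trans ?_
  have h1 : n ≤ (a n).2.2 := hmono.le_apply
  have h2 : (1 / 4 : ℝ) ^ (a n).2.2 ≤ (1 / 4) ^ n :=
    pow_le_pow_of_le_one (by norm_num) (by norm_num) h1
  gcongr

end CX

end Pool.Agent.H96f76
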