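import Pool.Agent.H96f76.Rep

/-!
# The selection theorem
-/

set_option autoImplicit false
set_option linter.unusedSectionVars false
set_option linter.unusedVariables false

namespace Pool.Agent.H96f76

open MeasureTheory Set Filter Topology
open scoped ENNReal

variable {X : Type*} [MetricSpace X] [CompactSpace X] [MeasurableSpace X] [BorelSpace X]
  {l : Measure X} [IsFiniteMeasure l] {M : ℝ}

theorem norm_smul_dual {Z : Type*} [NormedAddCommGroup Z] [NormedSpace ℝ Z] {s : ℝ} (hs : 0 ≤ s)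
    (φ : StrongDual ℝ Z) : ‖s • φ‖ = s * ‖φ‖ := by
  rw [norm_smul, Real.norm_eq_abs, abs_of_nonneg hs]

/-- The functional `f ↦ ∫ s f`. -/
noncomputable def intF (l : Measure X) [IsFiniteMeasure l] (s : C(X, ℝ)) : StrongDual ℝ C(X, ℝ) :=
  LinearMap.mkContinuous
    { toFun := fun f => ∫ x, s x * f x ∂l
      map_add' := by
        intro f g
        have h1 : ∫ x, (s x * f x + s x * g x) ∂l = (∫ x, s x * f x ∂l) + ∫ x, s x * g x ∂l :=
          integral_add (integrable_C l (s * f)) (integrable_C l (s * g))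
        rw [← h1]
        congr 1
        ext x
        rw [ContinuousMap.add_apply, mul_add]
      map_smul' := by
        intro c f
        rw [RingHom.id_apply, smul_eq_mul, ← integral_const_mul]
        congr 1
        ext x
        rw [ContinuousMap.smul_apply, smul_eq_mul]
        ring } (l.real univ * ‖s‖) (by
    intro f
    show |∫ x, s x * f x ∂l| ≤ _
    calc |∫ x, s x * f x ∂l| ≤ ∫ x, |(s * f) x| ∂l := abs_integral_le_integral_abs
      _ ≤ l.real univ * ‖s * f‖ := integral_abs_le l (s * f)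
      _ ≤ l.real univ * (‖s‖ * ‖f‖) := by gcongr; exact norm_mul_le _ _
      _ = _ := by ring)

theorem intF_apply (s f : C(X, ℝ)) : intF l s f = ∫ x, s x * f x ∂l := rfl

/-- The functional `(1 - |s|) a + M s l`. -/
noncomputable def mix (l : Measure X) [IsFiniteMeasure l] (M : ℝ) (a : StrongDual ℝ C(X, ℝ))
    (s : C(X, ℝ)) : StrongDual ℝ C(X, ℝ) :=
  a.comp (ContinuousLinearMap.mul ℝ C(X, ℝ) (1 - |s|)) + M • intF l s

theorem mix_apply (a : StrongDual ℝ C(X, ℝ)) (s f : C(X, ℝ)) :
    mix l M a s f = a ((1 - |s|) * f) + M * ∫ x, s x * f x ∂l := rfl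

theorem mix_mem {a : StrongDual ℝ C(X, ℝ)} (hM : 0 ≤ M) (ha : a ∈ Kset l M) {s : C(X, ℝ)}
    (hs : ∀ x, |s x| ≤ 1) : mix l M a s ∈ Kset l M := by
  intro f
  rw [mix_apply]
  have h1 := ha ((1 - |s|) * f)
  have h2 : |∫ x, s x * f x ∂l| ≤ ∫ x, |(s * f) x| ∂l := abs_integral_le_integral_abs
  have h3 : (∫ x, |((1 - |s|) * f) x| ∂l) + ∫ x, |(s * f) x| ∂l = ∫ x, |f x| ∂l := by
    rw [← integral_add (integrable_abs l _) (integrable_abs l _)]
    congr 1
    ext x
    show |(1 - |s x|) * f x| + |s x * f x| = |f x|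
    rw [abs_mul, abs_mul, abs_of_nonneg (by linarith [hs x])]
    ring
  calc |a ((1 - |s|) * f) + M * ∫ x, s x * f x ∂l|
      ≤ |a ((1 - |s|) * f)| + |M * ∫ x, s x * f x ∂l| := abs_add_le _ _
    _ ≤ M * (∫ x, |((1 - |s|) * f) x| ∂l) + M * ∫ x, |(s * f) x| ∂l := by
        rw [abs_mul, abs_of_nonneg hM]
        gcongr
    _ = M * ∫ x, |f x| ∂l := by rw [← mul_add, h3]

theorem norm_mix_sub_le {a : StrongDual ℝ C(X, ℝ)} (hM : 0 ≤ M) (ha : a ∈ Kset l M) (s : C(X, ℝ)) :
    ‖mix l M a s - a‖ ≤ M * (∫ x, |s x| ∂l) - a s := by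
  apply norm_le_of_forall
  intro f hf
  have hfx : ∀ x, |f x| ≤ 1 := fun x => (f.norm_coe_le_norm x).trans hf
  have h1 := (le_abs_self _).trans (ha (s - |s| * f))
  have h2 : ∫ x, |(s - |s| * f) x| ∂l = (∫ x, |s x| ∂l) - ∫ x, s x * f x ∂l := by
    have hi : Integrable (fun x => s x * f x) l := integrable_C l (s * f)
    rw [← integral_sub (integrable_abs l _) hi]
    congr 1
    ext x
    show |s x - |s x| * f x| = |s x| - s x * f x
    have hf1 := abs_le.1 (hfx x)
    rcases le_total 0 (s x) with h0 | h0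
    · rw [abs_of_nonneg h0, abs_of_nonneg]
      nlinarith
    · rw [abs_of_nonpos h0, abs_of_nonpos]
      · ring
      · nlinarith
  rw [h2] at h1
  rw [sub_apply, mix_apply]
  have h3 : a ((1 - |s|) * f) = a f - a (|s| * f) := by
    rw [← map_sub]; congr 1; ring
  have h4 : a (s - |s| * f) = a s - a (|s| * f) := map_sub _ _ _
  rw [h3]
  rw [h4] at h1
  linarith

/-- The interpolation lemma. -/
theorem interp (hM : 0 ≤ M) {a h : StrongDual ℝ C(X, ℝ)} (ha : a ∈ Kset l M) (hh : h ∈ Kset l M)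
    {κ : ℝ} (hκ : 0 < κ) : ∃ s : C(X, ℝ), (∀ x, |s x| ≤ 1) ∧ ‖mix l M a s - h‖ ≤ κ ∧
      M * (∫ x, |s x| ∂l) - a s ≤ ‖h - a‖ + κ := by
  obtain ⟨u, hu, huM, hau⟩ := exists_density hM ha
  obtain ⟨v, hv, hvM, hhv⟩ := exists_density hM hh
  set σ : X → ℝ := fun x => if u x ≤ v x then (v x - u x) / (M - u x) else
    (v x - u x) / (M + u x) with hσ
  have hσm : Measurable σ :=
    Measurable.ite (measurableSet_le hu hv) ((hv.sub hu).div (measurable_const.sub hu))
      ((hv.sub hu).div (measurable_const.add hu))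
  have hux : ∀ x, -M ≤ u x ∧ u x ≤ M := fun x => abs_le.1 (huM x)
  have hvx : ∀ x, -M ≤ v x ∧ v x ≤ M := fun x => abs_le.1 (hvM x)
  have hσ1 : ∀ x, |σ x| ≤ 1 := by
    intro x
    obtain ⟨h1, h2⟩ := hux x
    obtain ⟨h3, h4⟩ := hvx x
    simp only [hσ]
    split_ifs with h
    · rw [abs_div, abs_of_nonneg (by linarith : 0 ≤ v x - u x),
        abs_of_nonneg (by linarith : 0 ≤ M - u x)]
      exact div_le_one_of_le₀ (by linarith) (by linarith)
    · rw [abs_div, abs_of_neg (by linarith : v x - u x < 0),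
        abs_of_nonneg (by linarith : 0 ≤ M + u x)]
      exact div_le_one_of_le₀ (by linarith) (by linarith)
  have hσa : ∀ x, σ x * M - |σ x| * u x = v x - u x := by
    intro x
    obtain ⟨h1, h2⟩ := hux x
    obtain ⟨h3, h4⟩ := hvx x
    simp only [hσ]
    split_ifs with h
    · rw [abs_div, abs_of_nonneg (by linarith : 0 ≤ v x - u x),
        abs_of_nonneg (by linarith : 0 ≤ M - u x)]
      by_cases h0 : M - u x = 0
      · rw [h0, div_zero]; linarith
      · field_simp
    · rw [abs_div, abs_of_neg (by linarith : v x - u x < 0),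
        abs_of_nonneg (by linarith : 0 ≤ M + u x)]
      by_cases h0 : M + u x = 0
      · rw [h0, div_zero, div_zero]; linarith
      · field_simp
        ring
  have hσb : ∀ x, |σ x| * M - σ x * u x = |v x - u x| := by
    intro x
    obtain ⟨h1, h2⟩ := hux x
    obtain ⟨h3, h4⟩ := hvx x
    simp only [hσ]
    split_ifs with h
    · rw [abs_div, abs_of_nonneg (by linarith : 0 ≤ v x - u x),
        abs_of_nonneg (by linarith : 0 ≤ M - u x)]
      by_cases h0 : M - u x = 0
      · rw [h0, div_zero]; linarith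
      · field_simp
    · rw [abs_div, abs_of_neg (by linarith : v x - u x < 0),
        abs_of_nonneg (by linarith : 0 ≤ M + u x)]
      by_cases h0 : M + u x = 0
      · rw [h0, div_zero, div_zero]; linarith
      · field_simp
        ring
  set κ' : ℝ := κ / (2 * M + 1) with hκ'
  have hκ'0 : 0 < κ' := by positivity
  have hκ'M : 2 * M * κ' ≤ κ := by
    rw [hκ', mul_div_assoc', div_le_iff₀ (by positivity)]
    nlinarith
  obtain ⟨s, hs1, hs2⟩ := approx (l := l) hσm hσ1 hκ'0
  have hdm : Measurable fun x => v x - u x := hv.sub hu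
  have hduM : ∀ x, |v x - u x| ≤ 2 * M := by
    intro x
    have := abs_sub (v x) (u x)
    linarith [huM x, hvM x]
  have hi1 : Integrable (fun x => |σ x - s x|) l := by
    apply Integrable.abs
    apply Integrable.sub _ (integrable_C l s)
    exact Integrable.of_bound hσm.aestronglyMeasurable 1 (Eventually.of_forall hσ1)
  refine ⟨s, hs1, ?_, ?_⟩
  · apply norm_le_of_forall
    intro f hf
    have hfx : ∀ x, |f x| ≤ 1 := fun x => (f.norm_coe_le_norm x).trans hf
    have e1 : (mix l M a s - h) f =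
        ∫ x, ((1 - |s x|) * f x * u x + M * (s x * f x) - f x * v x) ∂l := by
      rw [sub_apply, mix_apply, hau, hhv, ← integral_const_mul, ← integral_add, ← integral_sub]
      · rfl
      · exact (integrable_mul hu huM ((1 - |s|) * f)).add ((integrable_C l (s * f)).const_mul M)
      · exact integrable_mul hv hvM f
      · exact integrable_mul hu huM ((1 - |s|) * f)
      · exact (integrable_C l (s * f)).const_mul M
    rw [e1]
    calc ∫ x, ((1 - |s x|) * f x * u x + M * (s x * f x) - f x * v x) ∂l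
        ≤ ∫ x, 2 * M * |σ x - s x| ∂l := by
          apply integral_mono
          · exact ((integrable_mul hu huM ((1 - |s|) * f)).add
              ((integrable_C l (s * f)).const_mul M)).sub (integrable_mul hv hvM f)
          · exact hi1.const_mul _
          · intro x
            show (1 - |s x|) * f x * u x + M * (s x * f x) - f x * v x ≤ 2 * M * |σ x - s x|
            have h3 : (1 - |s x|) * f x * u x + M * (s x * f x) - f x * v x =
                f x * ((s x - σ x) * M - (|s x| - |σ x|) * u x) := by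
              have := hσa x
              have h4 : v x = u x + (σ x * M - |σ x| * u x) := by linarith
              rw [h4]; ring
            rw [h3]
            have h5 : |(|s x| - |σ x|)| ≤ |s x - σ x| := abs_abs_sub_abs_le _ _
            have h6 : |(s x - σ x) * M - (|s x| - |σ x|) * u x| ≤ 2 * M * |σ x - s x| := by
              calc |(s x - σ x) * M - (|s x| - |σ x|) * u x|
                  ≤ |(s x - σ x) * M| + |(|s x| - |σ x|) * u x| := abs_sub _ _
                _ = |s x - σ x| * M + |(|s x| - |σ x|)| * |u x| := by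
                    rw [abs_mul, abs_mul, abs_of_nonneg hM]
                _ ≤ |s x - σ x| * M + |s x - σ x| * M := by
                    gcongr
                    exact huM x
                _ = 2 * M * |σ x - s x| := by rw [abs_sub_comm (s x)]; ring
            calc f x * ((s x - σ x) * M - (|s x| - |σ x|) * u x)
                ≤ |f x * ((s x - σ x) * M - (|s x| - |σ x|) * u x)| := le_abs_self _
              _ = |f x| * |(s x - σ x) * M - (|s x| - |σ x|) * u x| := abs_mul _ _
              _ ≤ 1 * (2 * M * |σ x - s x|) :=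
                  mul_le_mul (hfx x) h6 (abs_nonneg _) zero_le_one
              _ = _ := one_mul _
      _ = 2 * M * ∫ x, |σ x - s x| ∂l := integral_const_mul _ _
      _ ≤ 2 * M * κ' := by gcongr
      _ ≤ κ := hκ'M
  · have e1 : M * (∫ x, |s x| ∂l) - a s = ∫ x, (M * |s x| - s x * u x) ∂l := by
      rw [hau, ← integral_const_mul, ← integral_sub ((integrable_abs l s).const_mul M)
        (integrable_mul hu huM s)]
    have e2 : ∫ x, |v x - u x| ∂l ≤ ‖h - a‖ := l1_norm hu hv huM hvM hau hhv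
    have hi2 : Integrable (fun x => |v x - u x|) l :=
      Integrable.of_bound hdm.abs.aestronglyMeasurable (2 * M) (Eventually.of_forall
          fun x => by rw [norm_abs_eq_norm]; exact hduM x)
    have e3 : ∫ x, (M * |s x| - s x * u x) ∂l ≤ ∫ x, (|v x - u x| + 2 * M * |σ x - s x|) ∂l := by
      apply integral_mono
      · exact ((integrable_abs l s).const_mul M).sub (integrable_mul hu huM s)
      · exact hi2.add (hi1.const_mul _)
      · intro x
        show M * |s x| - s x * u x ≤ |v x - u x| + 2 * M * |σ x - s x|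
        have h3 := hσb x
        have h5 : |s x| - |σ x| ≤ |s x - σ x| := abs_sub_abs_le_abs_sub _ _
        have h6 : (σ x - s x) * u x ≤ |s x - σ x| * M := by
          calc (σ x - s x) * u x ≤ |(σ x - s x) * u x| := le_abs_self _
            _ = |σ x - s x| * |u x| := abs_mul _ _
            _ ≤ |σ x - s x| * M := by gcongr; exact huM x
            _ = _ := by rw [abs_sub_comm]
        have h7 : (|s x| - |σ x|) * M ≤ |s x - σ x| * M := by gcongr
        have h8 : |σ x - s x| = |s x - σ x| := abs_sub_comm _ _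
        rw [h8]
        nlinarith
    rw [integral_add hi2 (hi1.const_mul _), integral_const_mul] at e3
    have e4 : 2 * M * ∫ x, |σ x - s x| ∂l ≤ 2 * M * κ' := by gcongr
    rw [e1]
    linarith

section Selection

variable {Y : Type*} [TopologicalSpace Y]

/-- The set of the good elements. -/
def Good (l : Measure X) (M η : ℝ) (φ : StrongDual ℝ C(X, ℝ)) : Set (StrongDual ℝ C(X, ℝ)) :=
  {h | h ∈ Kset l M ∧ ‖φ - h‖ < 2 * dd l M φ + η}

theorem convex_Good (l : Measure X) (M η : ℝ) (φ : StrongDual ℝ C(X, ℝ)) :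
    Convex ℝ (Good l M η φ) := by
  intro a ha b hb s t hs ht hst
  refine ⟨convex_Kset l M ha.1 hb.1 hs ht hst, ?_⟩
  have h1 : φ - (s • a + t • b) = s • (φ - a) + t • (φ - b) := by
    have : φ = s • φ + t • φ := by rw [← add_smul, hst, one_smul]
    rw [smul_sub, smul_sub]
    nth_rewrite 1 [this]
    abel
  have h2 : ‖s • (φ - a)‖ = s * ‖φ - a‖ := norm_smul_dual hs (φ - a)
  have h3 : ‖t • (φ - b)‖ = t * ‖φ - b‖ := norm_smul_dual ht (φ - b)
  have h4 : ‖φ - (s • a + t • b)‖ ≤ s * ‖φ - a‖ + t * ‖φ - b‖ := by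
    rw [h1, ← h2, ← h3]
    exact norm_add_le (s • (φ - a)) (t • (φ - b))
  set r := 2 * dd l M φ + η with hr
  have h5 : ‖φ - a‖ < r := ha.2
  have h6 : ‖φ - b‖ < r := hb.2
  rcases hs.lt_or_eq with h0 | h0
  · have h7 : s * ‖φ - a‖ < s * r := by gcongr
    have h8 : t * ‖φ - b‖ ≤ t * r := by gcongr
    have h9 : s * r + t * r = r := by rw [← add_mul, hst, one_mul]
    linarith
  · have ht1 : t = 1 := by linarith
    rw [← h0, ht1] at h4 ⊢
    linarith

theorem Good_nonempty (hM : 0 ≤ M) {η : ℝ} (hη : 0 < η) (φ : StrongDual ℝ C(X, ℝ)) :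
    (Good l M η φ).Nonempty := by
  obtain ⟨a, ha, h⟩ := exists_near (l := l) hM φ
  refine ⟨a, ha, ?_⟩
  have := dd_nonneg (l := l) hM φ
  linarith

/-- Lower semicontinuity. -/
theorem lsc (hM : 0 ≤ M) {η : ℝ} (hη : 0 < η) (φ : Y → StrongDual ℝ C(X, ℝ))
    (hφ : ∀ f, Continuous fun y => φ y f) (y₀ : Y) {h : StrongDual ℝ C(X, ℝ)}
    (hh : h ∈ Good l M η (φ y₀)) (g : ℕ → C(X, ℝ)) (n : ℕ) {ε : ℝ} (hε : 0 < ε) :
    ∀ᶠ y in 𝓝 y₀, ∃ z ∈ Good l M η (φ y), ∀ i < n, |h (g i) - z (g i)| < ε := by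
  by_contra hcon
  rw [not_eventually] at hcon
  obtain ⟨U, hU1, hU2⟩ : ∃ U : Ultrafilter Y, (U : Filter Y) ≤ 𝓝 y₀ ∧
      ∀ᶠ y in (U : Filter Y), ¬ ∃ z ∈ Good l M η (φ y), ∀ i < n, |h (g i) - z (g i)| < ε := by
    set S : Set Y := {y | ¬ ∃ z ∈ Good l M η (φ y), ∀ i < n, |h (g i) - z (g i)| < ε} with hS
    have hne : (𝓝 y₀ ⊓ 𝓟 S).NeBot := frequently_mem_iff_neBot.1 hcon
    refine ⟨Ultrafilter.of (𝓝 y₀ ⊓ 𝓟 S), (Ultrafilter.of_le (𝓝 y₀ ⊓ 𝓟 S)).trans inf_le_left, ?_⟩
    have h1 := (Ultrafilter.of_le (𝓝 y₀ ⊓ 𝓟 S)).trans inf_le_right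
    exact le_principal_iff.1 h1
  choose a haK ha using fun y => exists_near (l := l) hM (φ y)
  obtain ⟨b, -, hb⟩ := exists_weakstar_limit U a (C := M * l.real univ)
    (fun y => norm_le_of_mem hM (haK y))
  have hbK : b ∈ Kset l M := by
    intro f
    exact le_of_tendsto' (hb f).abs fun y => haK y f
  -- constants
  set c : ℝ := ‖φ y₀ - b‖ with hc
  have hP := prop_P hM hbK hh.1 (φ y₀)
  have hlt : ‖h - b‖ < η + c := by
    have := hh.2
    linarith
  obtain ⟨R, hR0, hR⟩ : ∃ R : ℝ, 0 < R ∧ ∀ i < n, ‖g i‖ ≤ R := by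
    refine ⟨∑ i ∈ Finset.range n, ‖g i‖ + 1, by positivity, fun i hi => ?_⟩
    have := Finset.single_le_sum (f := fun i => ‖g i‖) (fun i _ => norm_nonneg _)
      (Finset.mem_range.2 hi)
    linarith
  set κ : ℝ := min ((η + c - ‖h - b‖) / 4) (ε / (4 * R)) with hκ
  have hκ0 : 0 < κ := lt_min (by linarith) (by positivity)
  have hκ1 : 4 * κ ≤ η + c - ‖h - b‖ := by
    have := min_le_left ((η + c - ‖h - b‖) / 4) (ε / (4 * R))
    linarith
  have hκ2 : κ * R ≤ ε / 4 := by
    have h1 := min_le_right ((η + c - ‖h - b‖) / 4) (ε / (4 * R))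
    calc κ * R ≤ ε / (4 * R) * R := by gcongr
      _ = ε / 4 := by field_simp
  obtain ⟨s, hs1, hs2, hs3⟩ := interp hM hbK hh.1 hκ0
  -- eventual properties
  have ev1 : ∀ᶠ y in (U : Filter Y), M * (∫ x, |s x| ∂l) - a y s < ‖h - b‖ + 2 * κ := by
    have h1 : Tendsto (fun y => M * (∫ x, |s x| ∂l) - a y s) U (𝓝 (M * (∫ x, |s x| ∂l) - b s)) :=
      tendsto_const_nhds.sub (hb s)
    apply h1.eventually (gt_mem_nhds _)
    linarith
  have ev2 : ∀ᶠ y in (U : Filter Y), c - κ < ‖φ y - a y‖ := by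
    -- a test function
    obtain ⟨f, hf1, hf2⟩ : ∃ f : C(X, ℝ), ‖f‖ ≤ 1 ∧ c - κ < (φ y₀ - b) f := by
      by_contra hno
      push Not at hno
      have := norm_le_of_forall hno
      linarith
    have h1 : Tendsto (fun y => (φ y - a y) f) U (𝓝 ((φ y₀ - b) f)) := by
      have h2 : Tendsto (fun y => φ y f) U (𝓝 (φ y₀ f)) :=
        ((hφ f).continuousAt.tendsto).mono_left hU1
      exact h2.sub (hb f)
    filter_upwards [h1.eventually (lt_mem_nhds hf2)] with y hy
    calc c - κ < (φ y - a y) f := hy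
      _ ≤ |(φ y - a y) f| := le_abs_self _
      _ ≤ ‖φ y - a y‖ * ‖f‖ := (φ y - a y).le_opNorm f
      _ ≤ ‖φ y - a y‖ * 1 := by gcongr
      _ = _ := mul_one _
  have ev3 : ∀ i < n, ∀ᶠ y in (U : Filter Y),
      |mix l M (a y) s (g i) - mix l M b s (g i)| < ε / 2 := by
    intro i hi
    have h1 : Tendsto (fun y => mix l M (a y) s (g i)) U (𝓝 (mix l M b s (g i))) := by
      simp only [mix_apply]
      exact (hb _).add_const _
    have h2 := (tendsto_iff_dist_tendsto_zero.1 h1).eventually (gt_mem_nhds (by positivity :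
      (0 : ℝ) < ε / 2))
    exact h2
  have ev3' : ∀ᶠ y in (U : Filter Y), ∀ i < n,
      |mix l M (a y) s (g i) - mix l M b s (g i)| < ε / 2 := by
    have h1 : ∀ᶠ y in (U : Filter Y), ∀ i ∈ Finset.range n,
        |mix l M (a y) s (g i) - mix l M b s (g i)| < ε / 2 := by
      rw [Filter.eventually_all_finset]
      intro i hi
      exact ev3 i (Finset.mem_range.1 hi)
    filter_upwards [h1] with y hy i hi
    exact hy i (Finset.mem_range.2 hi)
  obtain ⟨y, h1, h2, h3, h4⟩ := (ev1.and (ev2.and (ev3'.and hU2))).exists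
  apply h4
  refine ⟨mix l M (a y) s, ⟨mix_mem hM (haK y) hs1, ?_⟩, fun i hi => ?_⟩
  · have e1 := norm_mix_sub_le hM (haK y) s
    have e2 : ‖φ y - mix l M (a y) s‖ ≤ ‖φ y - a y‖ + ‖mix l M (a y) s - a y‖ := by
      have : φ y - mix l M (a y) s = (φ y - a y) - (mix l M (a y) s - a y) := by abel
      rw [this]
      exact norm_sub_le (φ y - a y) (mix l M (a y) s - a y)
    have e3 := ha y
    linarith
  · have e1 : |h (g i) - mix l M b s (g i)| ≤ ε / 4 := by
      have h5 : h (g i) - mix l M b s (g i) = -((mix l M b s - h) (g i)) := by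
        rw [sub_apply]; ring
      rw [h5, abs_neg]
      calc |(mix l M b s - h) (g i)| ≤ ‖mix l M b s - h‖ * ‖g i‖ :=
            (mix l M b s - h).le_opNorm _
        _ ≤ κ * R := by
            gcongr
            exact hR i hi
        _ ≤ _ := hκ2
    have e2 := h3 i hi
    rw [abs_sub_comm] at e2
    calc |h (g i) - mix l M (a y) s (g i)|
        ≤ |h (g i) - mix l M b s (g i)| + |mix l M b s (g i) - mix l M (a y) s (g i)| :=
          abs_sub_le _ _ _
      _ < ε := by linarith

end Selection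

end Pool.Agent.H96f76
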